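import Mathlib

set_option autoImplicit false

/-!
Spherical diagrams over the presentation complex of a labelled oriented graph (LOG) and
diagrammatic reducibility; the local sparsity test.
-/

namespace Pool.Agent.H891R2.RL

/-- A labelled oriented graph with vertex set `V` and edge set `E`: the edge `e` runs from `ini e`
to `ter e` and is labelled by the vertex `lab e`. -/
structure LOG (V E : Type) where
  ini : E → V
  ter : E → V
  lab : E → V

namespace LOG

variable {V E : Type}

/-- The relator `r_e = i(e) λ(e) t(e)⁻¹ λ(e)⁻¹` of the edge `e`; a letter `(x, true)` is the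
generator `x` and `(x, false)` its inverse. -/
def rel (L : LOG V E) (e : E) : Fin 4 → V × Bool :=
  ![(L.ini e, true), (L.lab e, true), (L.ter e, false), (L.lab e, false)]

/-- Every edge has two different end points and its label is none of them. -/
def Compressed (L : LOG V E) : Prop :=
  ∀ e, L.ini e ≠ L.ter e ∧ L.lab e ≠ L.ini e ∧ L.lab e ≠ L.ter e

variable [DecidableEq V]

/-- the letters of the relator of `e` -/
def lt (L : LOG V E) (e : E) : Finset V := {L.ini e, L.ter e, L.lab e}

/-- the letters which occur in the relators of a set `S` of edges -/
def letters (L : LOG V E) (S : Finset E) : Finset V := S.biUnion L.lt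

/-- Local sparsity: every set `S` of at most `K` edges involves (as end points or labels) at least
`2|S|` vertices. -/
def Sparse (L : LOG V E) (K : ℕ) : Prop :=
  ∀ S : Finset E, S.card ≤ K → 2 * S.card ≤ (L.letters S).card

end LOG

/-- the letter read along a directed edge at position `p` of the relator `e`, read forwards
(`s = true`) or backwards (`s = false`) -/
def signedLetter {X R : Type} (r : R → Fin 4 → X × Bool) (e : R) (p : Fin 4) (s : Bool) : X × Bool :=
  ((r e p).1, (r e p).2 == s)

/-- A spherical diagram over the presentation with generators `X` and relators `r e` (`e : R`), all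
of length four: a cell structure of the sphere in which every directed edge has a letter and every
face is labelled by a relator or by the inverse of a relator.

The cell structure is given by its directed edges `D`: `opp d` is the same edge in the opposite
direction, `nxt d` is the directed edge which follows `d` on the boundary of the face to the left of
`d`.  The edges are the orbits of `opp`, the faces are the orbits of `nxt`, the vertices are the
orbits of `opp ∘ nxt⁻¹` (the rotation around the starting point of a directed edge); the surface is
connected and its Euler characteristic is two.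

The face to the left of `d` is labelled by the relator `cell d` if `sgn d = true` and by its inverse
if `sgn d = false`; `d` is at the position `pos d` of this relator. -/
structure SphericalDiagram {X R : Type} (r : R → Fin 4 → X × Bool) where
  D : Type
  finD : Finite D
  nonemptyD : Nonempty D
  nxt : Equiv.Perm D
  opp : Equiv.Perm D
  opp_ne : ∀ d, opp d ≠ d
  opp_opp : ∀ d, opp (opp d) = d
  connected : ∀ d d' : D, Relation.ReflTransGen (fun x y => y = nxt x ∨ y = opp x) d d'
  euler : Nat.card (Quot fun x y : D => y = opp (nxt.symm x)) + 
      Nat.card (Quot fun x y : D => y = nxt x) = Nat.card (Quot fun x y : D => y = opp x) + 2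
  cell : D → R
  pos : D → Fin 4
  sgn : D → Bool
  face : ∀ d, nxt (nxt (nxt (nxt d))) = d
  cell_nxt : ∀ d, cell (nxt d) = cell d
  sgn_nxt : ∀ d, sgn (nxt d) = sgn d
  pos_nxt : ∀ d, pos (nxt d) = if sgn d then pos d + 1 else pos d - 1
  letter_opp : ∀ d, signedLetter r (cell (opp d)) (pos (opp d)) (sgn (opp d)) = 
    ((signedLetter r (cell d) (pos d) (sgn d)).1, !(signedLetter r (cell d) (pos d) (sgn d)).2)

/-- The diagram is reduced: no two faces with a common edge are mirror images of each other with
respect to this edge (labelled by the same relator, which is read in opposite directions from the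
same position). -/
def SphericalDiagram.Reduced {X R : Type} {r : R → Fin 4 → X × Bool} (S : SphericalDiagram r) : 
    Prop := ∀ d, ¬ (S.cell (S.opp d) = S.cell d ∧ S.pos (S.opp d) = S.pos d ∧ 
      S.sgn (S.opp d) ≠ S.sgn d)

/-- The presentation (its presentation 2-complex) is diagrammatically reducible: there is no reduced
spherical diagram. -/
def DR {X R : Type} (r : R → Fin 4 → X × Bool) : Prop := ∀ S : SphericalDiagram r, ¬ S.Reduced

/-! ### auxiliary notions for the proof -/

section aux

variable {V E : Type}

/-- The local data of a reduced diagram over a compressed LOG.  Every `d : D` is a corner of a square;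
`ρ` = next corner around the same vertex of the diagram; `e d` = the relator of the square; `y d` = the
letter of the edge between the corners `ρ⁻¹ d` and `d`.  Every corner lies between an edge labelled
`lab (e d)` and an edge labelled by the *pole* `ini (e d)` (`side d = true`) or `ter (e d)`
(`side d = false`); `fwd d = true`: the label comes first (between `ρ⁻¹ d` and `d`), the pole second
(between `d` and `ρ d`).  `π d` = the corner of the same square at the other end of the side
labelled `lab (e d)`. -/
structure Disc (L : LOG V E) (D : Type) where
  ρ : Equiv.Perm D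
  π : Equiv.Perm D
  e : D → E
  y : D → V
  fwd : D → Bool
  side : D → Bool
  ends : ∀ d, if fwd d then y d = L.lab (e d) ∧ y (ρ d) = (if side d then L.ini (e d) else L.ter (e d))
    else y (ρ d) = L.lab (e d) ∧ y d = (if side d then L.ini (e d) else L.ter (e d))
  same : ∀ d, e (ρ d) = e d → y (ρ d) = L.lab (e d) ∧ y (ρ (ρ d)) = y d ∧ ρ (ρ d) ≠ d
  π_e : ∀ d, e (π d) = e d
  π_side : ∀ d, side (π d) = !side d
  π_fwd : ∀ d, fwd (π d) = !fwd d
  π_nbr : ∀ d, if fwd d then e (ρ.symm d) = e (ρ (π d)) else e (ρ d) = e (ρ.symm (π d))

namespace Disc

variable {L : LOG V E} {D : Type}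

/-- the pole of the corner -/
def pole (A : Disc L D) (d : D) : V := if A.side d then L.ini (A.e d) else L.ter (A.e d)

/-- the pole at the opposite side of the square -/
def far (A : Disc L D) (d : D) : V := if A.side d then L.ter (A.e d) else L.ini (A.e d)

/-- vertices of the diagram of degree at most three -/
def Short (A : Disc L D) (d : D) : Prop := A.ρ (A.ρ d) = d ∨ A.ρ (A.ρ (A.ρ d)) = d

/-- the same with the opposite orientation -/
def rev (A : Disc L D) : Disc L D where
  ρ := A.ρ.symm
  π := A.π
  e := A.e
  y := fun d => A.y (A.ρ d)
  fwd := fun d => !A.fwd d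
  side := A.side
  ends := by
    intro d
    have := A.ends d
    by_cases h : A.fwd d <;> simp_all
  same := by
    intro d h
    have h1 := A.same (A.ρ.symm d)
    simp only [Equiv.apply_symm_apply] at h1
    obtain ⟨h2, h3, h4⟩ := h1 h.symm
    refine ⟨by simpa [h] using h2, ?_, ?_⟩
    · simp only [Equiv.apply_symm_apply]
      exact h3.symm
    · intro h5
      apply h4
      rw [Equiv.symm_apply_eq] at h5
      exact h5.symm
  π_e := A.π_e
  π_side := A.π_side
  π_fwd := by
    intro d
    rw [A.π_fwd]
  π_nbr := by
    intro d
    have := A.π_nbr d
    by_cases h : A.fwd d <;> simp_all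

/-- a set of squares of minimal size with `2|S|` letters -/
def _root_.Pool.Agent.H891R2.RL.LOG.Rare [DecidableEq V] (L : LOG V E) (S : Finset E) : Prop := 
  S.card ≤ 3 ∧ (L.letters S).card = 2 * S.card ∧ 
    ∀ T : Finset E, T ⊂ S → T.Nonempty → 2 * T.card + 1 ≤ (L.letters T).card

/-- the corner `d` gives `1/4` to the vertex of `π d`, which has degree at most three and squares `S` -/
def Don [DecidableEq V] (A : Disc L D) (d : D) (S : Finset E) : Prop :=
  L.Rare S ∧ A.e d ∈ S ∧ (∀ g ∈ S, A.pole d ∈ L.lt g → g = A.e d) ∧ 
    (if A.fwd d then A.e (A.ρ.symm d) ∈ S ∧ A.e (A.ρ.symm d) ≠ A.e d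
      else A.e (A.ρ d) ∈ S ∧ A.e (A.ρ d) ≠ A.e d)

end Disc

end aux

end Pool.Agent.H891R2.RL
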