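import Pool.Agent.H891R2.RL.Defs

set_option autoImplicit false

/-! Task RB: the Euler characteristic bound. -/

namespace Pool.Agent.H891R2.RL.RB

/-- if every fibre of `Quot.mk` has `m` elements then `|D| = m |Quot|` -/
theorem card_quot {D : Type} [Finite D] (rel : D → D → Prop) (m : ℕ) (P : D → Finset D)
    (h1 : ∀ x y, rel x y → P x = P y) (h2 : ∀ x, x ∈ P x)
    (h3 : ∀ x, ∀ y ∈ P x, Quot.mk rel y = Quot.mk rel x) (h4 : ∀ x, (P x).card = m) :
    Nat.card D = m * Nat.card (Quot rel) := by
  classical
  have : Fintype D := Fintype.ofFinite D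
  have hfQ : Finite (Quot rel) := Quot.finite rel
  have : Fintype (Quot rel) := Fintype.ofFinite _
  rw [Nat.card_eq_fintype_card, Nat.card_eq_fintype_card]
  have hfib : ∀ q : Quot rel, (Finset.univ.filter (fun d : D => Quot.mk rel d = q)).card = m := by
    intro q
    induction q using Quot.ind with
    | mk x =>
      rw [← h4 x]
      congr 1
      ext y
      rw [Finset.mem_filter]
      constructor
      · rintro ⟨-, h⟩
        have h5 : Quot.lift P h1 (Quot.mk rel y) = Quot.lift P h1 (Quot.mk rel x) := by rw [h]
        have h6 : P y = P x := h5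
        rw [← h6]
        exact h2 y
      · intro h
        exact ⟨Finset.mem_univ _, h3 x y h⟩
  have := Finset.card_eq_sum_card_fiberwise (s := (Finset.univ : Finset D))
    (t := (Finset.univ : Finset (Quot rel))) (f := fun d => Quot.mk rel d)
    (fun _ _ => Finset.mem_coe.2 (Finset.mem_univ _))
  rw [Finset.card_univ] at this
  rw [this, Finset.sum_congr rfl (fun q _ => hfib q), Finset.sum_const, Finset.card_univ,
    smul_eq_mul, mul_comm]

theorem euler_bound {X R : Type} {r : R → Fin 4 → X × Bool} (S : SphericalDiagram r) :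
    Nat.card S.D < 4 * Nat.card (Quot fun x y : S.D => y = S.opp (S.nxt.symm x)) := by
  classical
  have := S.finD
  have := S.nonemptyD
  have hE : Nat.card S.D = 2 * Nat.card (Quot fun x y : S.D => y = S.opp x) := by
    refine card_quot _ 2 (fun d => {d, S.opp d}) ?_ ?_ ?_ ?_
    · rintro x y rfl
      rw [S.opp_opp, Finset.pair_comm]
    · intro x
      simp
    · intro x y hy
      rw [Finset.mem_insert, Finset.mem_singleton] at hy
      rcases hy with rfl | rfl
      · rfl
      · exact (Quot.sound (r := fun x y : S.D => y = S.opp x) (a := x) (b := S.opp x) rfl).symm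
    · intro x
      exact Finset.card_pair (S.opp_ne x).symm
  have hF : Nat.card S.D = 4 * Nat.card (Quot fun x y : S.D => y = S.nxt x) := by
    refine card_quot _ 4
      (fun d => {d, S.nxt d, S.nxt (S.nxt d), S.nxt (S.nxt (S.nxt d))}) ?_ ?_ ?_ ?_
    · rintro x y rfl
      rw [S.face]
      ext z
      simp only [Finset.mem_insert, Finset.mem_singleton]
      tauto
    · intro x
      simp
    · intro x y hy
      have s1 : ∀ z : S.D, Quot.mk (fun x y : S.D => y = S.nxt x) (S.nxt z) =
          Quot.mk (fun x y : S.D => y = S.nxt x) z := fun z =>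
        (Quot.sound (r := fun x y : S.D => y = S.nxt x) (a := z) (b := S.nxt z) rfl).symm
      simp only [Finset.mem_insert, Finset.mem_singleton] at hy
      rcases hy with rfl | rfl | rfl | rfl
      · rfl
      · exact s1 _
      · rw [s1, s1]
      · rw [s1, s1, s1]
    · intro x
      have p1 := S.pos_nxt x
      have p2 := S.pos_nxt (S.nxt x)
      have p3 := S.pos_nxt (S.nxt (S.nxt x))
      rw [S.sgn_nxt] at p2
      rw [S.sgn_nxt, S.sgn_nxt] at p3
      have key : ∀ a : Fin 4, a ≠ a + 1 ∧ a ≠ a + 1 + 1 ∧ a ≠ a + 1 + 1 + 1 ∧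
          a ≠ a - 1 ∧ a ≠ a - 1 - 1 ∧ a ≠ a - 1 - 1 - 1 := by decide
      have d1 : ∀ z, S.nxt z ≠ z := by
        intro z hz
        have q1 := S.pos_nxt z
        rw [hz] at q1
        by_cases hs : S.sgn z = true
        · rw [if_pos hs] at q1
          exact (key _).1 q1
        · rw [if_neg hs] at q1
          exact (key _).2.2.2.1 q1
      have d2 : ∀ z, S.nxt (S.nxt z) ≠ z := by
        intro z hz
        have q1 := S.pos_nxt z
        have q2 := S.pos_nxt (S.nxt z)
        rw [hz, S.sgn_nxt] at q2
        by_cases hs : S.sgn z = true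
        · rw [if_pos hs] at q1 q2
          rw [q1] at q2
          exact (key _).2.1 q2
        · rw [if_neg hs] at q1 q2
          rw [q1] at q2
          exact (key _).2.2.2.2.1 q2
      have d3 : ∀ z, S.nxt (S.nxt (S.nxt z)) ≠ z := by
        intro z hz
        have q1 := S.face z
        rw [hz] at q1
        exact d1 z q1
      rw [Finset.card_insert_of_notMem, Finset.card_insert_of_notMem, Finset.card_pair]
      · exact (d1 _).symm
      · rw [Finset.mem_insert, Finset.mem_singleton]
        rintro (h | h)
        · exact d1 _ h.symm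
        · exact d2 _ h.symm
      · rw [Finset.mem_insert, Finset.mem_insert, Finset.mem_singleton]
        rintro (h | h | h)
        · exact d1 _ h.symm
        · exact d2 _ h.symm
        · exact d3 _ h.symm
  have hEu := S.euler
  have hpos : 0 < Nat.card S.D := Nat.card_pos
  omega

end Pool.Agent.H891R2.RL.RB
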