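import Pool.Agent.H891R2.RL.Defs

set_option autoImplicit false

namespace Pool.Agent.H891R2.RL.RC

open Finset

variable {V E D : Type}

theorem y_ne (L : LOG V E) (hC : L.Compressed) (A : Disc L D) (d : D) : A.y d ≠ A.y (A.ρ d) := by
  have h := A.ends d
  obtain ⟨h1, h2, h3⟩ := hC (A.e d)
  by_cases hf : A.fwd d = true
  · rw [if_pos hf] at h
    obtain ⟨h4, h5⟩ := h
    rw [h4, h5]
    by_cases hs : A.side d = true
    · rw [if_pos hs]; exact h2
    · rw [if_neg hs]; exact h3
  · rw [if_neg hf] at h
    obtain ⟨h4, h5⟩ := h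
    rw [h4, h5]
    by_cases hs : A.side d = true
    · rw [if_pos hs]; exact h2.symm
    · rw [if_neg hs]; exact h3.symm

theorem far_ne (L : LOG V E) (hC : L.Compressed) (A : Disc L D) (d : D) :
    A.far d ≠ A.y d ∧ A.far d ≠ A.y (A.ρ d) := by
  have h := A.ends d
  obtain ⟨h1, h2, h3⟩ := hC (A.e d)
  unfold Disc.far
  by_cases hf : A.fwd d = true
  · rw [if_pos hf] at h
    obtain ⟨h4, h5⟩ := h
    rw [h4, h5]
    by_cases hs : A.side d = true
    · rw [if_pos hs, if_pos hs]; exact ⟨h3.symm, h1.symm⟩
    · rw [if_neg hs, if_neg hs]; exact ⟨h2.symm, h1⟩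
  · rw [if_neg hf] at h
    obtain ⟨h4, h5⟩ := h
    rw [h4, h5]
    by_cases hs : A.side d = true
    · rw [if_pos hs, if_pos hs]; exact ⟨h1.symm, h3.symm⟩
    · rw [if_neg hs, if_neg hs]; exact ⟨h1, h2.symm⟩

theorem lt_eq [DecidableEq V] (L : LOG V E) (A : Disc L D) (d : D) :
    L.lt (A.e d) = {A.y d, A.y (A.ρ d), A.far d} := by
  have h := A.ends d
  unfold Disc.far LOG.lt
  by_cases hf : A.fwd d = true
  · rw [if_pos hf] at h
    obtain ⟨h4, h5⟩ := h
    rw [h4, h5]
    by_cases hs : A.side d = true
    · rw [if_pos hs, if_pos hs]; ext x; simp only [mem_insert, mem_singleton]; tauto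
    · rw [if_neg hs, if_neg hs]; ext x; simp only [mem_insert, mem_singleton]; tauto
  · rw [if_neg hf] at h
    obtain ⟨h4, h5⟩ := h
    rw [h4, h5]
    by_cases hs : A.side d = true
    · rw [if_pos hs, if_pos hs]; ext x; simp only [mem_insert, mem_singleton]; tauto
    · rw [if_neg hs, if_neg hs]; ext x; simp only [mem_insert, mem_singleton]; tauto

theorem card_lt [DecidableEq V] (L : LOG V E) (hC : L.Compressed) (e : E) : (L.lt e).card = 3 := by
  obtain ⟨h1, h2, h3⟩ := hC e
  unfold LOG.lt
  rw [card_eq_three]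
  exact ⟨_, _, _, h1, h2.symm, h3.symm, rfl⟩

theorem nodup_of_card [DecidableEq V] (l : List V) (h : l.length ≤ l.toFinset.card) : l.Nodup := by
  have h1 : (l : Multiset V).toFinset.card = Multiset.card (l : Multiset V) := by
    apply le_antisymm
    · exact Multiset.toFinset_card_le _
    · simpa using h
  have := Multiset.toFinset_card_eq_card_iff_nodup.mp h1
  simpa using this

theorem card_of_nodup [DecidableEq V] (l : List V) (h : l.Nodup) : l.toFinset.card = l.length :=
  List.toFinset_card_of_nodup h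

/-- the three squares around a vertex of degree three -/
theorem three [DecidableEq V] [DecidableEq E] (L : LOG V E) (hC : L.Compressed) (hS : L.Sparse 7)
    (e1 e2 e3 : E) (a b c f1 f2 f3 : V) (h12 : e1 ≠ e2) (h13 : e1 ≠ e3) (h23 : e2 ≠ e3)
    (l1 : L.lt e1 = {a, b, f1}) (l2 : L.lt e2 = {b, c, f2}) (l3 : L.lt e3 = {c, a, f3}) :
    L.Rare {e1, e2, e3} ∧ ∀ g ∈ ({e1, e2, e3} : Finset E), f1 ∈ L.lt g → g = e1 := by
  have hcard : ({e1, e2, e3} : Finset E).card = 3 :=
    card_eq_three.mpr ⟨_, _, _, h12, h13, h23, rfl⟩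
  have hlet : L.letters {e1, e2, e3} = [a, b, c, f1, f2, f3].toFinset := by
    unfold LOG.letters
    ext x
    simp only [mem_biUnion, mem_insert, mem_singleton, exists_eq_or_imp, exists_eq_left, l1, l2, l3,
      List.mem_toFinset, List.mem_cons, List.not_mem_nil, or_false]
    constructor
    · rintro ((h | h | h) | (h | h | h) | (h | h | h)) <;> simp [h]
    · rintro (h | h | h | h | h | h) <;> simp [h]
  have h4 := hS {e1, e2, e3} (by rw [hcard]; norm_num)
  rw [hcard, hlet] at h4
  have hnd : [a, b, c, f1, f2, f3].Nodup := nodup_of_card [a, b, c, f1, f2, f3] (by simpa using h4)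
  have hc4 := card_of_nodup _ hnd
  have l12 : (L.letters {e1, e2}).card = 5 := by
    have : L.letters {e1, e2} = [a, b, c, f1, f2].toFinset := by
      unfold LOG.letters
      ext x
      simp only [mem_biUnion, mem_insert, mem_singleton, exists_eq_or_imp, exists_eq_left, l1, l2,
        List.mem_toFinset, List.mem_cons, List.not_mem_nil, or_false]
      constructor
      · rintro ((h | h | h) | (h | h | h)) <;> simp [h]
      · rintro (h | h | h | h | h) <;> simp [h]
    rw [this, card_of_nodup _ (hnd.sublist ?_)]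
    · rfl
    · repeat (first | exact List.Sublist.slnil | apply List.Sublist.cons_cons | apply List.Sublist.cons)
  have l13 : (L.letters {e1, e3}).card = 5 := by
    have : L.letters {e1, e3} = [a, b, c, f1, f3].toFinset := by
      unfold LOG.letters
      ext x
      simp only [mem_biUnion, mem_insert, mem_singleton, exists_eq_or_imp, exists_eq_left, l1, l3,
        List.mem_toFinset, List.mem_cons, List.not_mem_nil, or_false]
      constructor
      · rintro ((h | h | h) | (h | h | h)) <;> simp [h]
      · rintro (h | h | h | h | h) <;> simp [h]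
    rw [this, card_of_nodup _ (hnd.sublist ?_)]
    · rfl
    · repeat (first | exact List.Sublist.slnil | apply List.Sublist.cons_cons | apply List.Sublist.cons)
  have l23 : (L.letters {e2, e3}).card = 5 := by
    have : L.letters {e2, e3} = [a, b, c, f2, f3].toFinset := by
      unfold LOG.letters
      ext x
      simp only [mem_biUnion, mem_insert, mem_singleton, exists_eq_or_imp, exists_eq_left, l2, l3,
        List.mem_toFinset, List.mem_cons, List.not_mem_nil, or_false]
      constructor
      · rintro ((h | h | h) | (h | h | h)) <;> simp [h]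
      · rintro (h | h | h | h | h) <;> simp [h]
    rw [this, card_of_nodup _ (hnd.sublist ?_)]
    · rfl
    · repeat (first | exact List.Sublist.slnil | apply List.Sublist.cons_cons | apply List.Sublist.cons)
  refine ⟨⟨?_, ?_, ?_⟩, ?_⟩
  · rw [hcard]
  · rw [hlet, hcard, hc4]; rfl
  · intro T hT hTn
    have hTc : T.card < 3 := by
      have := card_lt_card hT
      rwa [hcard] at this
    have hTp := hTn.card_pos
    have h12 : T.card = 1 ∨ T.card = 2 := by omega
    rcases h12 with hT1 | hT2
    · obtain ⟨g, rfl⟩ := card_eq_one.mp hT1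
      rw [card_singleton]
      unfold LOG.letters
      rw [singleton_biUnion, card_lt L hC]
    · obtain ⟨g, g', hgg, rfl⟩ := card_eq_two.mp hT2
      rw [hT2]
      have hg : g ∈ ({e1, e2, e3} : Finset E) := hT.1 (by simp)
      have hg' : g' ∈ ({e1, e2, e3} : Finset E) := hT.1 (by simp)
      simp only [mem_insert, mem_singleton] at hg hg'
      rcases hg with rfl | rfl | rfl <;> rcases hg' with rfl | rfl | rfl
      · exact absurd rfl hgg
      · rw [l12]
      · rw [l13]
      · rw [pair_comm, l12]
      · exact absurd rfl hgg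
      · rw [l23]
      · rw [pair_comm, l13]
      · rw [pair_comm, l23]
      · exact absurd rfl hgg
  · simp only [List.nodup_cons, List.mem_cons, List.not_mem_nil, or_false, not_or,
      not_false_eq_true, List.nodup_nil, and_true] at hnd
    obtain ⟨⟨hab, hac, haf1, haf2, haf3⟩, ⟨hbc, hbf1, hbf2, hbf3⟩, ⟨hcf1, hcf2, hcf3⟩,
      ⟨hf12, hf13⟩, hf23⟩ := hnd
    intro g hg hfg
    simp only [mem_insert, mem_singleton] at hg
    rcases hg with rfl | rfl | rfl
    · rfl
    · exfalso
      rw [l2] at hfg
      simp only [mem_insert, mem_singleton] at hfg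
      rcases hfg with h | h | h
      · exact hbf1 h.symm
      · exact hcf1 h.symm
      · exact hf12 h
    · exfalso
      rw [l3] at hfg
      simp only [mem_insert, mem_singleton] at hfg
      rcases hfg with h | h | h
      · exact hcf1 h.symm
      · exact haf1 h.symm
      · exact hf13 h

/-- the two squares around a vertex of degree two -/
theorem two [DecidableEq V] [DecidableEq E] (L : LOG V E) (hC : L.Compressed) (hS : L.Sparse 7)
    (e1 e2 : E) (a b f f' : V) (h12 : e1 ≠ e2)
    (l1 : L.lt e1 = {a, b, f}) (l2 : L.lt e2 = {b, a, f'}) :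
    L.Rare {e1, e2} ∧ ∀ g ∈ ({e1, e2} : Finset E), f ∈ L.lt g → g = e1 := by
  have hcard : ({e1, e2} : Finset E).card = 2 := card_pair h12
  have hlet : L.letters {e1, e2} = [a, b, f, f'].toFinset := by
    unfold LOG.letters
    ext x
    simp only [mem_biUnion, mem_insert, mem_singleton, exists_eq_or_imp, exists_eq_left, l1, l2,
      List.mem_toFinset, List.mem_cons, List.not_mem_nil, or_false]
    constructor
    · rintro ((h | h | h) | (h | h | h)) <;> simp [h]
    · rintro (h | h | h | h) <;> simp [h]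
  have h4 := hS {e1, e2} (by rw [hcard]; norm_num)
  rw [hcard, hlet] at h4
  have hnd : [a, b, f, f'].Nodup := nodup_of_card [a, b, f, f'] (by simpa using h4)
  have hc4 := card_of_nodup _ hnd
  simp only [List.nodup_cons, List.mem_cons, List.not_mem_nil, or_false, not_or,
    not_false_eq_true, List.nodup_nil, and_true] at hnd
  obtain ⟨⟨hab, haf, haf'⟩, ⟨hbf, hbf'⟩, hff'⟩ := hnd
  refine ⟨⟨?_, ?_, ?_⟩, ?_⟩
  · rw [hcard]; norm_num
  · rw [hlet, hcard, hc4]; rfl
  · intro T hT hTn
    have hTc : T.card < 2 := by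
      have := card_lt_card hT
      rwa [hcard] at this
    have hT1 : T.card = 1 := by
      have := hTn.card_pos
      omega
    obtain ⟨g, rfl⟩ := card_eq_one.mp hT1
    rw [card_singleton]
    unfold LOG.letters
    rw [singleton_biUnion, card_lt L hC]
  · intro g hg hfg
    simp only [mem_insert, mem_singleton] at hg
    rcases hg with rfl | rfl
    · rfl
    · exfalso
      rw [l2] at hfg
      simp only [mem_insert, mem_singleton] at hfg
      rcases hfg with h | h | h
      · exact hbf h.symm
      · exact haf h.symm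
      · exact hff' h

theorem short_rare [DecidableEq V] [DecidableEq E] (L : LOG V E) (hC : L.Compressed) (hS : L.Sparse 7)
    (A : Disc L D) (p : D) (hp : A.Short p) :
    ∃ S : Finset E, L.Rare S ∧ A.e p ∈ S ∧ A.e (A.ρ p) ∈ S ∧ A.e (A.ρ.symm p) ∈ S ∧
      A.e (A.ρ p) ≠ A.e p ∧ A.e (A.ρ.symm p) ≠ A.e p ∧ ∀ g ∈ S, A.far p ∈ L.lt g → g = A.e p := by
  by_cases h2 : A.ρ (A.ρ p) = p
  · have hsy : A.ρ.symm p = A.ρ p := by rw [Equiv.symm_apply_eq]; exact h2.symm
    rw [hsy]
    have hne : A.e (A.ρ p) ≠ A.e p := fun h => (A.same p h).2.2 h2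
    have l1 := lt_eq L A p
    have l2 := lt_eq L A (A.ρ p)
    rw [h2] at l2
    obtain ⟨h1, h3⟩ := two L hC hS _ _ _ _ _ _ hne.symm l1 l2
    exact ⟨_, h1, by simp, by simp, by simp, hne, hne, h3⟩
  · have h3 : A.ρ (A.ρ (A.ρ p)) = p := by
      rcases hp with h | h
      · exact absurd h h2
      · exact h
    have hsy : A.ρ.symm p = A.ρ (A.ρ p) := by rw [Equiv.symm_apply_eq]; exact h3.symm
    rw [hsy]
    have key : ∀ d, A.ρ (A.ρ (A.ρ d)) = d → A.e (A.ρ d) ≠ A.e d := by
      intro d hd h
      have h4 := (A.same d h).2.1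
      have h5 := y_ne L hC A (A.ρ (A.ρ d))
      rw [hd] at h5
      exact h5 h4
    have hne1 : A.e (A.ρ p) ≠ A.e p := key p h3
    have hne2 : A.e (A.ρ (A.ρ p)) ≠ A.e (A.ρ p) := key (A.ρ p) (by rw [h3])
    have hne3 : A.e p ≠ A.e (A.ρ (A.ρ p)) := by
      have := key (A.ρ (A.ρ p)) (by rw [h3])
      rwa [h3] at this
    have l1 := lt_eq L A p
    have l2 := lt_eq L A (A.ρ p)
    have l3 := lt_eq L A (A.ρ (A.ρ p))
    rw [h3] at l3
    obtain ⟨h1, h5⟩ := three L hC hS _ _ _ _ _ _ _ _ _ hne1.symm hne3 hne2.symm l1 l2 l3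
    exact ⟨_, h1, by simp, by simp, by simp, hne1, hne3.symm, h5⟩

end Pool.Agent.H891R2.RL.RC
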