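import Pool.Agent.H891R2.RL.RD2

set_option autoImplicit false

/-! RD3: no donors at vertices of degree two, three and four (helper99) -/

namespace Pool.Agent.H891R2.RL.RD3

open Finset RD1 RD2

variable {V E D : Type}

theorem don_rev [DecidableEq V] {L : LOG V E} (A : Disc L D) (d : D) (S : Finset E)
    (h : A.Don d S) : A.rev.Don d S := by
  obtain ⟨h1, h2, h3, h4⟩ := h
  refine ⟨h1, h2, h3, ?_⟩
  by_cases hf : A.fwd d = true
  · rw [if_pos hf] at h4
    have hf' : ¬ A.rev.fwd d = true := by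
      show ¬ (!A.fwd d) = true
      rw [hf]
      decide
    rw [if_neg hf']
    exact h4
  · rw [if_neg hf] at h4
    have hf' : A.rev.fwd d = true := by
      show (!A.fwd d) = true
      rw [Bool.not_eq_true] at hf
      rw [hf]
      rfl
    rw [if_pos hf']
    exact h4

/-- D3: no donors at vertices of degree two and three -/
theorem don_short [DecidableEq V] [DecidableEq E] (L : LOG V E) (hC : L.Compressed) (hS : L.Sparse 7) 
    (short_rare : ∀ (A : Disc L D) (p : D), A.Short p →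
      ∃ S : Finset E, L.Rare S ∧ A.e p ∈ S ∧ A.e (A.ρ p) ∈ S ∧ A.e (A.ρ.symm p) ∈ S ∧ 
        A.e (A.ρ p) ≠ A.e p ∧ A.e (A.ρ.symm p) ≠ A.e p ∧
        ∀ g ∈ S, A.far p ∈ L.lt g → g = A.e p)
    (A : Disc L D) (d : D) (S : Finset E) (hd : A.Don d S) : ¬ A.Short d := by
  intro hsh
  obtain ⟨S1, hr, h1, h2, h3, -⟩ := short_rare A d hsh
  have hSS : S = S1 := rare_eq L hS S S1 hd.1 hr _
    (lt_sub_letters L hd.2.1 (lab_mem L _)) (lt_sub_letters L h1 (lab_mem L _))
  rw [← hSS] at h2 h3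
  by_cases hf : A.fwd d = true
  · exact (don_next L hC hS A d S hf hd).1 h2
  · have hf' : A.rev.fwd d = true := by
      show (!A.fwd d) = true
      rw [Bool.not_eq_true] at hf
      rw [hf]
      rfl
    exact (don_next L hC hS A.rev d S hf' (don_rev A d S hd)).1 h3

/-- D4: no donors at vertices of degree four -/
theorem don_four [DecidableEq V] [DecidableEq E] (L : LOG V E) (hC : L.Compressed) (hS : L.Sparse 7) 
    (A : Disc L D) (d : D) (S : Finset E) (hf : A.fwd d = true) (hd : A.Don d S) : 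
    A.ρ (A.ρ (A.ρ (A.ρ d))) ≠ d := by
  intro h4
  obtain ⟨c1, c2, -, -⟩ := don_next L hC hS A d S hf hd
  obtain ⟨hr, hed, hpole, hlast⟩ := hd
  rw [if_pos hf] at hlast
  have hinv : A.ρ.symm d = A.ρ (A.ρ (A.ρ d)) := by
    rw [Equiv.symm_apply_eq]
    exact h4.symm
  rw [hinv] at hlast
  obtain ⟨hy1, hy2⟩ := ends_fwd A d hf
  have y1 := ys L hC A (A.ρ d)
  have y2 := ys L hC A (A.ρ (A.ρ d))
  have y3 := ys L hC A (A.ρ (A.ρ (A.ρ d)))
  have hfS : A.y (A.ρ d) ∈ L.letters S := by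
    rw [hy2]
    exact lt_sub_letters L hed (pole_mem A d)
  have hx3 : A.y (A.ρ (A.ρ (A.ρ d))) ∈ L.letters S := lt_sub_letters L hlast.1 y3.1
  by_cases hg : A.e (A.ρ (A.ρ d)) = A.e (A.ρ d)
  · have h1 := (A.same (A.ρ d) hg).2.1
    have h2 : A.pole d ∈ L.lt (A.e (A.ρ (A.ρ (A.ρ d)))) := by
      rw [← hy2, ← h1]
      exact y3.1
    exact hlast.2 (hpole _ hlast.1 h2)
  · have h1 : A.e (A.ρ d) ∉ insert (A.e (A.ρ (A.ρ d))) S := by
      rw [mem_insert]
      rintro (h | h)
      · exact hg h.symm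
      · exact c1 h
    have hc := hr.1
    have h2 := hS (insert (A.e (A.ρ d)) (insert (A.e (A.ρ (A.ρ d))) S))
      (by rw [card_insert_of_notMem h1, card_insert_of_notMem c2]; omega)
    rw [card_insert_of_notMem h1, card_insert_of_notMem c2, letters_insert, letters_insert] at h2
    have h3 := add1 L (A.e (A.ρ (A.ρ d))) (L.letters S) y2.2.1 hx3
    have h4 := add2 L (A.e (A.ρ d)) (L.lt (A.e (A.ρ (A.ρ d))) ∪ L.letters S) y1.2.2 y1.1
      (mem_union_right _ hfS) y1.2.1 (mem_union_left _ y2.1)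
    have h5 := hr.2.1
    omega

end Pool.Agent.H891R2.RL.RD3
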