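import Pool.Agent.H891R2.RL.Defs

/-! Task RD5 (project RL of helper891): vertices of degree five, first case. -/

set_option autoImplicit false

namespace Pool.Agent.H891R2.RL.RD5

open Finset

variable {V E D : Type}

theorem rare_eq' [DecidableEq V] [DecidableEq E] (L : LOG V E) (hS : L.Sparse 7) (S S' : Finset E)
    (h : L.Rare S) (h' : L.Rare S') (g : E) (hg : g ∈ S) (hg' : g ∈ S') : S = S' := by
  obtain ⟨hc, hl, hT⟩ := h
  obtain ⟨hc', hl', hT'⟩ := h'
  have hun : L.letters (S ∪ S') = L.letters S ∪ L.letters S' := by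
    unfold LOG.letters
    ext x
    simp only [mem_biUnion, mem_union]
    constructor
    · rintro ⟨a, ha | ha, hx⟩
      · exact Or.inl ⟨a, ha, hx⟩
      · exact Or.inr ⟨a, ha, hx⟩
    · rintro (⟨a, ha, hx⟩ | ⟨a, ha, hx⟩)
      · exact ⟨a, Or.inl ha, hx⟩
      · exact ⟨a, Or.inr ha, hx⟩
  have hin : L.letters (S ∩ S') ⊆ L.letters S ∩ L.letters S' := by
    unfold LOG.letters
    intro x
    simp only [mem_biUnion, mem_inter]
    rintro ⟨a, ⟨ha, ha'⟩, hx⟩
    exact ⟨⟨a, ha, hx⟩, ⟨a, ha', hx⟩⟩
  have h1 := hS (S ∪ S') (by have := card_union_le S S'; omega)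
  have h2 := card_union_add_card_inter (L.letters S) (L.letters S')
  have h3 := card_union_add_card_inter S S'
  have h4 := card_le_card hin
  rw [hun] at h1
  have hne : (S ∩ S').Nonempty := ⟨g, mem_inter.2 ⟨hg, hg'⟩⟩
  have key : S ∩ S' = S := by
    by_contra hk
    have := hT (S ∩ S') (Finset.ssubset_iff_subset_ne.2 ⟨inter_subset_left, hk⟩) hne
    omega
  have key' : S ∩ S' = S' := by
    by_contra hk
    have := hT' (S ∩ S') (Finset.ssubset_iff_subset_ne.2 ⟨inter_subset_right, hk⟩) hne
    omega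
  rw [← key, key']

theorem y_mem [DecidableEq V] {L : LOG V E} (A : Disc L D) (d : D) :
    A.y d ∈ L.lt (A.e d) ∧ A.y (A.ρ d) ∈ L.lt (A.e d) := by
  have h := A.ends d
  unfold LOG.lt
  by_cases hf : A.fwd d <;> by_cases hs : A.side d <;> simp_all

theorem y_ne {L : LOG V E} (hC : L.Compressed) (A : Disc L D) (d : D) :
    A.y d ≠ A.y (A.ρ d) := by
  have h := A.ends d
  obtain ⟨h1, h2, h3⟩ := hC (A.e d)
  by_cases hf : A.fwd d <;> by_cases hs : A.side d <;> simp_all <;> tauto

theorem lt_card [DecidableEq V] (L : LOG V E) (e : E) : (L.lt e).card ≤ 3 := by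
  unfold LOG.lt
  exact Finset.card_le_three

theorem letters_insert [DecidableEq V] [DecidableEq E] (L : LOG V E) (g : E) (S : Finset E) :
    L.letters (insert g S) = L.lt g ∪ L.letters S := by
  unfold LOG.letters
  rw [Finset.biUnion_insert]

theorem lt_subset [DecidableEq V] (L : LOG V E) {g : E} {S : Finset E} (hg : g ∈ S) :
    L.lt g ⊆ L.letters S := by
  unfold LOG.letters
  exact Finset.subset_biUnion_of_mem L.lt hg

/-- adding one square with two letters in `letters S` -/
theorem two_shared [DecidableEq V] [DecidableEq E] (L : LOG V E) (hS : L.Sparse 7) {S : Finset E}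
    (h : L.Rare S) {g : E} {a b : V} (hab : a ≠ b) (ha : a ∈ L.lt g) (hb : b ∈ L.lt g)
    (ha' : a ∈ L.letters S) (hb' : b ∈ L.letters S) : g ∈ S := by
  by_contra hg
  obtain ⟨hc, hl, -⟩ := h
  have h1 := hS (insert g S) (by rw [card_insert_of_notMem hg]; omega)
  rw [letters_insert, card_insert_of_notMem hg] at h1
  have h2 : L.lt g ∪ L.letters S ⊆ ((L.lt g).erase a).erase b ∪ L.letters S := by
    intro x hx
    rw [mem_union] at hx ⊢
    by_cases hxa : x = a
    · right; rw [hxa]; exact ha'
    · by_cases hxb : x = b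
      · right; rw [hxb]; exact hb'
      · rcases hx with hx | hx
        · left; simp [hx, hxa, hxb]
        · right; exact hx
  have h3 := (card_le_card h2).trans (card_union_le _ _)
  have h4 := lt_card L g
  have h5 : (((L.lt g).erase a).erase b).card = (L.lt g).card - 2 := by
    rw [card_erase_of_mem (by simp [hb, hab.symm]), card_erase_of_mem ha]; omega
  omega

theorem don_five1 [DecidableEq V] [DecidableEq E] (L : LOG V E) (hC : L.Compressed) (hS : L.Sparse 7)
    (A : Disc L D) (d : D) (S : Finset E) (hf : A.fwd d = true) (hd : A.Don d S)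
    (h5 : A.ρ (A.ρ (A.ρ (A.ρ (A.ρ d)))) = d) (S' : Finset E)
    (hf' : A.fwd (A.ρ (A.ρ (A.ρ d))) = false) : ¬ A.Don (A.ρ (A.ρ (A.ρ d))) S' := by
  intro hd'
  obtain ⟨hR, he, hp, hn⟩ := hd
  obtain ⟨hR', he', hp', hn'⟩ := hd'
  rw [if_pos hf] at hn
  rw [if_neg (by simp [hf'])] at hn'
  have hsym : A.ρ.symm d = A.ρ (A.ρ (A.ρ (A.ρ d))) := by
    rw [Equiv.symm_apply_eq]; exact h5.symm
  rw [hsym] at hn
  set d1 := A.ρ d with hd1
  set d2 := A.ρ d1 with hd2
  set d3 := A.ρ d2 with hd3
  set d4 := A.ρ d3 with hd4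
  have hSS : S = S' := rare_eq' L hS S S' hR hR' (A.e d4) hn.1 hn'.1
  -- ends
  have hends := A.ends d
  rw [if_pos hf] at hends
  have hpole : A.y d1 = A.pole d := hends.2
  have hends3 := A.ends d3
  rw [if_neg (by simp [hf'])] at hends3
  have hCe := hC (A.e d)
  have hpne : A.pole d ≠ L.lab (A.e d) := by
    unfold Disc.pole
    split_ifs
    · exact hCe.2.1.symm
    · exact hCe.2.2.symm
  -- `e d1` is not in `S`
  have hg1 : A.e d1 ∉ S := by
    intro h
    have h1 := hp (A.e d1) h (by rw [← hpole]; exact (y_mem A d1).1)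
    have h2 := A.same d h1
    exact hpne (by rw [← hpole]; exact h2.1)
  have hy1S : A.y d1 ∈ L.letters S := lt_subset L he (y_mem A d).2
  have hg2 : A.e d2 ∉ S := by
    intro h
    exact hg1 (two_shared L hS hR (y_ne hC A d1) (y_mem A d1).1 (y_mem A d1).2 hy1S
      (lt_subset L h (y_mem A d2).1))
  have he3 : A.e d3 ∈ S := by rw [hSS]; exact he'
  have hy3S : A.y d3 ∈ L.letters S := lt_subset L he3 (y_mem A d3).1
  by_cases hg : A.e d2 = A.e d1
  · obtain ⟨-, h2, -⟩ := A.same d1 hg
    have h3 : A.y d3 = A.pole d := by rw [← hpole]; exact h2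
    have h4 : A.e d3 = A.e d := hp (A.e d3) he3 (by rw [← h3]; exact (y_mem A d3).1)
    have h6 : A.y d4 = A.y d := by
      have : A.y d4 = L.lab (A.e d3) := hends3.1
      rw [this, h4, hends.1]
    have h7 := y_ne hC A d4
    rw [h5] at h7
    exact h7 h6
  · obtain ⟨hc, hl, -⟩ := hR
    have hni : A.e d1 ∉ insert (A.e d2) S := by
      rw [mem_insert, not_or]
      exact ⟨fun h => hg h.symm, hg1⟩
    have h1 := hS (insert (A.e d1) (insert (A.e d2) S)) (by
      rw [card_insert_of_notMem hni, card_insert_of_notMem hg2]; omega)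
    rw [letters_insert, letters_insert, card_insert_of_notMem hni, card_insert_of_notMem hg2] at h1
    have h2 : L.lt (A.e d1) ∪ (L.lt (A.e d2) ∪ L.letters S) ⊆
        (L.lt (A.e d1)).erase (A.y d1) ∪
          (((L.lt (A.e d2)).erase (A.y d2)).erase (A.y d3) ∪ L.letters S) := by
      intro x hx
      simp only [mem_union] at hx ⊢
      by_cases hx1 : x = A.y d1
      · right; right; rw [hx1]; exact hy1S
      · by_cases hx2 : x = A.y d2
        · left
          rw [mem_erase]
          exact ⟨hx1, by rw [hx2]; exact (y_mem A d1).2⟩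
        · by_cases hx3 : x = A.y d3
          · right; right; rw [hx3]; exact hy3S
          · rcases hx with hx | hx | hx
            · left; simp [hx, hx1]
            · right; left; simp [hx, hx2, hx3]
            · right; right; exact hx
    have h3 := (card_le_card h2).trans (card_union_le _ _)
    have h3' := card_union_le (((L.lt (A.e d2)).erase (A.y d2)).erase (A.y d3)) (L.letters S)
    have h4 := lt_card L (A.e d1)
    have h4' := lt_card L (A.e d2)
    have h6 : ((L.lt (A.e d1)).erase (A.y d1)).card = (L.lt (A.e d1)).card - 1 :=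
      card_erase_of_mem (y_mem A d1).1
    have h7 : (((L.lt (A.e d2)).erase (A.y d2)).erase (A.y d3)).card =
        (L.lt (A.e d2)).card - 2 := by
      have hne : A.y d3 ≠ A.y d2 := (y_ne hC A d2).symm
      have hm : A.y d3 ∈ L.lt (A.e d2) := (y_mem A d2).2
      rw [card_erase_of_mem (mem_erase.2 ⟨hne, hm⟩), card_erase_of_mem (y_mem A d2).1]; omega
    omega

end Pool.Agent.H891R2.RL.RD5
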