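import Pool.Agent.H891R2.RL.Defs

set_option autoImplicit false
set_option linter.unusedSectionVars false

namespace Pool.Agent.H891R2.RL.RD6

open Finset

variable {V E D : Type}

section count

variable [DecidableEq V] [DecidableEq E] (L : LOG V E)

theorem mem_letters {S : Finset E} {g : E} {x : V} (hg : g ∈ S) (hx : x ∈ L.lt g) :
    x ∈ L.letters S :=
  Finset.mem_biUnion.2 ⟨g, hg, hx⟩

theorem letters_insert (S : Finset E) (g : E) : L.letters (insert g S) = L.lt g ∪ L.letters S :=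
  Finset.biUnion_insert

theorem card_lt_le (g : E) : (L.lt g).card ≤ 3 := Finset.card_le_three

theorem ins1 (S : Finset E) (g : E) (x : V) (hx : x ∈ L.lt g) (hx' : x ∈ L.letters S) :
    (L.letters (insert g S)).card ≤ (L.letters S).card + 2 := by
  rw [letters_insert]
  have h1 := Finset.card_union_add_card_inter (L.lt g) (L.letters S)
  have h2 : 1 ≤ (L.lt g ∩ L.letters S).card :=
    Finset.card_pos.2 ⟨x, Finset.mem_inter.2 ⟨hx, hx'⟩⟩
  have h3 := card_lt_le L g
  omega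

theorem ins2 (S : Finset E) (g : E) (x z : V) (hxz : x ≠ z) (hx : x ∈ L.lt g)
    (hx' : x ∈ L.letters S) (hz : z ∈ L.lt g) (hz' : z ∈ L.letters S) :
    (L.letters (insert g S)).card ≤ (L.letters S).card + 1 := by
  rw [letters_insert]
  have h1 := Finset.card_union_add_card_inter (L.lt g) (L.letters S)
  have h2 : 1 < (L.lt g ∩ L.letters S).card :=
    Finset.one_lt_card.2 ⟨x, Finset.mem_inter.2 ⟨hx, hx'⟩, z, Finset.mem_inter.2 ⟨hz, hz'⟩, hxz⟩
  have h3 := card_lt_le L g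
  omega

/-- a new square has at most one letter in common with a rare set -/
theorem no_two (hS : L.Sparse 7) (S : Finset E) (hR : L.Rare S) (g : E) (hg : g ∉ S) (x z : V)
    (hxz : x ≠ z) (hx : x ∈ L.lt g) (hx' : x ∈ L.letters S) (hz : z ∈ L.lt g)
    (hz' : z ∈ L.letters S) : False := by
  have h1 := ins2 L S g x z hxz hx hx' hz hz'
  have h2 := hR.1
  have h3 := hR.2.1
  have h4 := Finset.card_insert_of_notMem hg
  have h5 := hS (insert g S) (by omega)
  omega

end count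

section disc

variable {L : LOG V E}

theorem ends_mem [DecidableEq V] (A : Disc L D) (d : D) :
    A.y d ∈ L.lt (A.e d) ∧ A.y (A.ρ d) ∈ L.lt (A.e d) := by
  have h := A.ends d
  unfold LOG.lt
  cases hf : A.fwd d <;> cases hs : A.side d <;> simp_all

theorem ends_ne (hC : L.Compressed) (A : Disc L D) (d : D) : A.y d ≠ A.y (A.ρ d) := by
  have h := A.ends d
  obtain ⟨_, h2, h3⟩ := hC (A.e d)
  intro heq
  cases hf : A.fwd d <;> rw [hf] at h
  · rw [if_neg (by simp)] at h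
    rw [h.1, h.2] at heq
    cases hs : A.side d <;> rw [hs] at heq
    · rw [if_neg (by simp)] at heq; exact h3 heq.symm
    · rw [if_pos rfl] at heq; exact h2 heq.symm
  · rw [if_pos rfl] at h
    rw [h.1, h.2] at heq
    cases hs : A.side d <;> rw [hs] at heq
    · rw [if_neg (by simp)] at heq; exact h3 heq
    · rw [if_pos rfl] at heq; exact h2 heq

end disc

/-- D6: vertices of degree five, second case -/
theorem don_five2 [DecidableEq V] [DecidableEq E]
    (rare_eq : ∀ (L : LOG V E), L.Sparse 7 → ∀ (S S' : Finset E),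
      L.Rare S → L.Rare S' → ∀ (x : V), x ∈ L.letters S → x ∈ L.letters S' → S = S')
    (don_next : ∀ (L : LOG V E), L.Compressed → L.Sparse 7 → ∀ (A : Disc L D) (d : D)
      (S : Finset E), A.fwd d = true → A.Don d S → A.e (A.ρ d) ∉ S ∧ A.e (A.ρ (A.ρ d)) ∉ S ∧
        (∀ S', ¬ A.Don (A.ρ d) S') ∧ ∀ S', ¬ A.Don (A.ρ (A.ρ d)) S')
    (L : LOG V E) (hC : L.Compressed) (hS : L.Sparse 7)
    (A : Disc L D) (d : D) (S : Finset E) (hf : A.fwd d = true) (hd : A.Don d S)
    (h5 : A.ρ (A.ρ (A.ρ (A.ρ (A.ρ d)))) = d) (S' : Finset E)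
    (hf' : A.fwd (A.ρ (A.ρ (A.ρ (A.ρ d)))) = false) : ¬ A.Don (A.ρ (A.ρ (A.ρ (A.ρ d)))) S' := by
  intro hd'
  obtain ⟨hR, hdS, _, hd4⟩ := id hd
  obtain ⟨hR', hdS', hpole', hd0'⟩ := id hd'
  have hsymm : A.ρ.symm d = A.ρ (A.ρ (A.ρ (A.ρ d))) := by
    rw [Equiv.symm_apply_eq]; exact h5.symm
  rw [hf, if_pos rfl, hsymm] at hd4
  rw [hf', if_neg (by simp), h5] at hd0'
  -- `S = S'`
  have hSS : S = S' := rare_eq L hS S S' hR hR' (A.y d) (mem_letters L hdS (ends_mem A d).1)
    (mem_letters L hd0'.1 (ends_mem A d).1)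
  subst hSS
  obtain ⟨hg1, hg2, _, _⟩ := don_next L hC hS A d S hf hd
  have hg3 : A.e (A.ρ (A.ρ (A.ρ d))) ∉ S := by
    have h1 := don_next L hC hS A.rev (A.ρ (A.ρ (A.ρ (A.ρ d)))) S (by
      change (!A.fwd _) = true
      rw [hf']; rfl) (by
      refine ⟨hR', hdS', hpole', ?_⟩
      change if (!A.fwd _) = true then A.e (A.ρ.symm.symm _) ∈ S ∧ A.e (A.ρ.symm.symm _) ≠ A.e _
        else _
      rw [hf', Bool.not_false, if_pos rfl, Equiv.symm_symm, h5]
      exact hd0')
    have h2 : A.e (A.ρ.symm (A.ρ (A.ρ (A.ρ (A.ρ d))))) ∉ S := h1.1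
    rwa [Equiv.symm_apply_apply] at h2
  -- the letters
  have n1 := ends_ne hC A (A.ρ d)
  have n2 := ends_ne hC A (A.ρ (A.ρ d))
  have n3 := ends_ne hC A (A.ρ (A.ρ (A.ρ d)))
  have m0 := ends_mem A d
  have m1 := ends_mem A (A.ρ d)
  have m2 := ends_mem A (A.ρ (A.ρ d))
  have m3 := ends_mem A (A.ρ (A.ρ (A.ρ d)))
  have m4 := ends_mem A (A.ρ (A.ρ (A.ρ (A.ρ d))))
  have s1 := A.same (A.ρ d)
  have s2 := A.same (A.ρ (A.ρ d))
  have l1 : A.y (A.ρ d) ∈ L.letters S := mem_letters L hdS m0.2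
  have l4 : A.y (A.ρ (A.ρ (A.ρ (A.ρ d)))) ∈ L.letters S := mem_letters L hdS' m4.1
  set d1 := A.ρ d
  set d2 := A.ρ d1
  set d3 := A.ρ d2
  set d4 := A.ρ d3
  by_cases h12 : A.e d2 = A.e d1
  · have h13 := (s1 h12).2.1
    exact no_two L hS S hR (A.e d3) hg3 (A.y d3) (A.y d4) n3 m3.1 (h13 ▸ l1) m3.2 l4
  by_cases h23 : A.e d3 = A.e d2
  · have h24 := (s2 h23).2.1
    exact no_two L hS S hR (A.e d1) hg1 (A.y d1) (A.y d2) n1 m1.1 l1 m1.2 (h24 ▸ l4)
  have c0 := hR.1
  have c1 := hR.2.1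
  have k1 := Finset.card_insert_of_notMem hg1
  have hg2' : A.e d2 ∉ insert (A.e d1) S := by
    rw [Finset.mem_insert]; tauto
  have k2 := Finset.card_insert_of_notMem hg2'
  have t1 := ins1 L S (A.e d1) (A.y d1) m1.1 l1
  have mem2 : A.y d2 ∈ L.letters (insert (A.e d1) S) :=
    mem_letters L (Finset.mem_insert_self _ _) m1.2
  by_cases h13 : A.e d3 = A.e d1
  · have mem3 : A.y d3 ∈ L.letters (insert (A.e d1) S) :=
      mem_letters L (Finset.mem_insert_self _ _) (h13 ▸ m3.1)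
    have t2 := ins2 L (insert (A.e d1) S) (A.e d2) (A.y d2) (A.y d3) n2 m2.1 mem2 m2.2 mem3
    have t3 := hS (insert (A.e d2) (insert (A.e d1) S)) (by omega)
    omega
  · have t2 := ins1 L (insert (A.e d1) S) (A.e d2) (A.y d2) m2.1 mem2
    have hg3' : A.e d3 ∉ insert (A.e d2) (insert (A.e d1) S) := by
      rw [Finset.mem_insert, Finset.mem_insert]; tauto
    have k3 := Finset.card_insert_of_notMem hg3'
    have mem3 : A.y d3 ∈ L.letters (insert (A.e d2) (insert (A.e d1) S)) :=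
      mem_letters L (Finset.mem_insert_self _ _) m2.2
    have mem4 : A.y d4 ∈ L.letters (insert (A.e d2) (insert (A.e d1) S)) := by
      unfold LOG.letters at l4 ⊢
      exact Finset.biUnion_subset_biUnion_of_subset_left _
        ((Finset.subset_insert _ _).trans (Finset.subset_insert _ _)) l4
    have t3 := ins2 L (insert (A.e d2) (insert (A.e d1) S)) (A.e d3) (A.y d3) (A.y d4) n3
      m3.1 mem3 m3.2 mem4
    have t4 := hS (insert (A.e d3) (insert (A.e d2) (insert (A.e d1) S))) (by omega)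
    omega

end Pool.Agent.H891R2.RL.RD6
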