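import Pool.Agent.H891R2.RL.Defs

set_option autoImplicit false

/-! Task RE: combinatorics of one orbit. -/

namespace Pool.Agent.H891R2.RL.RE

open Finset Function

variable {V E D : Type}

set_option maxRecDepth 100000 in
theorem five : ∀ a0 a1 a2 a3 a4 f0 f1 f2 f3 f4 : Bool,
    (a0 && f0 && (a1 || a2 || (!f3 && a3) || (!f4 && a4))) = false →
    (a1 && f1 && (a2 || a3 || (!f4 && a4) || (!f0 && a0))) = false →
    (a2 && f2 && (a3 || a4 || (!f0 && a0) || (!f1 && a1))) = false →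
    (a3 && f3 && (a4 || a0 || (!f1 && a1) || (!f2 && a2))) = false →
    (a4 && f4 && (a0 || a1 || (!f2 && a2) || (!f3 && a3))) = false →
    (a0 && !f0 && (a4 || a3)) = false →
    (a1 && !f1 && (a0 || a4)) = false →
    (a2 && !f2 && (a1 || a0)) = false →
    (a3 && !f3 && (a2 || a1)) = false →
    (a4 && !f4 && (a3 || a2)) = false →
    a0.toNat + a1.toNat + a2.toNat + a3.toNat + a4.toNat ≤ 1 := by
  decide

set_option maxRecDepth 100000 in
theorem six : ∀ a0 a1 a2 a3 a4 a5 f0 f1 f2 f3 f4 f5 : Bool,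
    (a0 && f0 && (a1 || a2)) = false →
    (a1 && f1 && (a2 || a3)) = false →
    (a2 && f2 && (a3 || a4)) = false →
    (a3 && f3 && (a4 || a5)) = false →
    (a4 && f4 && (a5 || a0)) = false →
    (a5 && f5 && (a0 || a1)) = false →
    (a0 && !f0 && (a5 || a4)) = false →
    (a1 && !f1 && (a0 || a5)) = false →
    (a2 && !f2 && (a1 || a0)) = false →
    (a3 && !f3 && (a2 || a1)) = false →
    (a4 && !f4 && (a3 || a2)) = false →
    (a5 && !f5 && (a4 || a3)) = false →
    a0.toNat + a1.toNat + a2.toNat + a3.toNat + a4.toNat + a5.toNat ≤ 2 := by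
  decide

section
variable [Finite D] (ρ : Equiv.Perm D) (d : D)

lemma per_pos : 0 < minimalPeriod ρ d :=
  minimalPeriod_pos_of_mem_periodicPts (ρ.injective.mem_periodicPts d)

lemma sameCycle_iff (y : D) :
    ρ.SameCycle d y ↔ ∃ i < minimalPeriod ρ d, ρ^[i] d = y := by
  constructor
  · intro h
    obtain ⟨i, hi⟩ := h.exists_nat_pow_eq
    refine ⟨i % minimalPeriod ρ d, Nat.mod_lt _ (per_pos ρ d), ?_⟩
    rw [iterate_mod_minimalPeriod_eq, ← hi, Equiv.Perm.coe_pow]
  · rintro ⟨i, _, rfl⟩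
    refine ⟨i, ?_⟩
    rw [zpow_natCast, Equiv.Perm.coe_pow]

open Classical in
lemma card_cycle (P : D → Prop) :
    Nat.card {x : D // ρ.SameCycle d x ∧ P x} =
      ∑ i ∈ range (minimalPeriod ρ d), (decide (P (ρ^[i] d))).toNat := by
  have := Fintype.ofFinite D
  rw [Nat.card_eq_fintype_card, Fintype.card_subtype]
  have e : (univ.filter fun x => ρ.SameCycle d x ∧ P x) =
      ((range (minimalPeriod ρ d)).filter fun i => P (ρ^[i] d)).image (fun i => ρ^[i] d) := by
    ext y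
    simp only [mem_filter, mem_univ, true_and, mem_image, mem_range, sameCycle_iff]
    constructor
    · rintro ⟨⟨i, hi, rfl⟩, hP⟩
      exact ⟨i, ⟨hi, hP⟩, rfl⟩
    · rintro ⟨i, ⟨hi, hP⟩, rfl⟩
      exact ⟨⟨i, hi, rfl⟩, hP⟩
  rw [e, card_image_of_injOn, card_filter]
  · refine sum_congr rfl fun i _ => ?_
    by_cases h : P (ρ^[i] d) <;> simp [h]
  · intro i hi j hj hij
    simp only [coe_filter, mem_range, Set.mem_ofPred_eq] at hi hj
    exact iterate_injOn_Iio_minimalPeriod hi.1 hj.1 hij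

lemma card_cycle' : Nat.card {x : D // ρ.SameCycle d x} = minimalPeriod ρ d := by
  classical
  have h := card_cycle ρ d (fun _ => True)
  have e : Nat.card {x : D // ρ.SameCycle d x} =
      Nat.card {x : D // ρ.SameCycle d x ∧ True} := by
    simp only [and_true]
  rw [e, h]
  simp

/-- at most one half of the corners are donors -/
lemma half (fwd : D → Bool) (Don : D → Prop)
    (hf : ∀ d, Don d → fwd d = true → ¬ Don (ρ d) ∧ ¬ Don (ρ (ρ d)))
    (hb : ∀ d, Don d → fwd d = false → ¬ Don (ρ.symm d) ∧ ¬ Don (ρ.symm (ρ.symm d))) :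
    2 * Nat.card {x : D // ρ.SameCycle d x ∧ Don x} ≤ Nat.card {x : D // ρ.SameCycle d x} := by
  classical
  have := Fintype.ofFinite D
  rw [Nat.card_eq_fintype_card, Fintype.card_subtype, Nat.card_eq_fintype_card,
    Fintype.card_subtype]
  set C : Finset D := univ.filter fun x => ρ.SameCycle d x with hC
  have hA : (univ.filter fun x => ρ.SameCycle d x ∧ Don x) = C.filter Don := by
    rw [hC, filter_filter]
  rw [hA]
  have hsum := card_filter_add_card_filter_not (s := C) (p := Don)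
  have hle : (C.filter Don).card ≤ (C.filter fun x => ¬ Don x).card := by
    refine card_le_card_of_injOn (fun x => if fwd x = true then ρ x else ρ.symm x) ?_ ?_
    · intro x hx
      simp only [coe_filter, Set.mem_ofPred_eq, hC, mem_filter, mem_univ, true_and] at hx ⊢
      by_cases hfx : fwd x = true
      · rw [if_pos hfx]
        exact ⟨Equiv.Perm.sameCycle_apply_right.mpr hx.1, (hf x hx.2 hfx).1⟩
      · rw [if_neg hfx]
        refine ⟨?_, (hb x hx.2 (by simpa using hfx)).1⟩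
        exact Equiv.Perm.sameCycle_symm_apply_right.mpr hx.1
    · intro x hx y hy hxy
      simp only [coe_filter, Set.mem_ofPred_eq, hC, mem_filter, mem_univ, true_and] at hx hy
      simp only at hxy
      by_cases hfx : fwd x = true <;> by_cases hfy : fwd y = true
      · rw [if_pos hfx, if_pos hfy] at hxy
        exact ρ.injective hxy
      · rw [if_pos hfx, if_neg hfy] at hxy
        exfalso
        apply (hf x hx.2 hfx).2
        rw [hxy]
        simpa using hy.2
      · rw [if_neg hfx, if_pos hfy] at hxy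
        exfalso
        apply (hf y hy.2 hfy).2
        rw [← hxy]
        simpa using hx.2
      · rw [if_neg hfx, if_neg hfy] at hxy
        exact ρ.symm.injective hxy
  omega

end

section
variable (ρ : Equiv.Perm D) (fwd : D → Bool) (Don : D → Prop) [DecidablePred Don]

lemma condB (hb : ∀ d, Don d → fwd d = false → ¬ Don (ρ.symm d) ∧ ¬ Don (ρ.symm (ρ.symm d)))
    (x y z : D) (hy : ρ y = x) (hz : ρ z = y) :
    (decide (Don x) && !fwd x && (decide (Don y) || decide (Don z))) = false := by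
  by_cases hx : Don x
  · cases hfx : fwd x
    · have h := hb x hx hfx
      have e1 : ρ.symm x = y := by rw [← hy]; simp
      have e2 : ρ.symm y = z := by rw [← hz]; simp
      rw [e1, e2] at h
      simp [hx, h.1, h.2]
    · simp
  · simp [hx]

lemma condF (hf : ∀ d, Don d → fwd d = true → ¬ Don (ρ d) ∧ ¬ Don (ρ (ρ d)))
    (x y z : D) (hy : ρ x = y) (hz : ρ y = z) :
    (decide (Don x) && fwd x && (decide (Don y) || decide (Don z))) = false := by
  by_cases hx : Don x
  · cases hfx : fwd x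
    · simp
    · have h := hf x hx hfx
      rw [hy, hz] at h
      simp [hx, h.1, h.2]
  · simp [hx]

lemma condF5 (hf : ∀ d, Don d → fwd d = true → ¬ Don (ρ d) ∧ ¬ Don (ρ (ρ d)))
    (h5 : ∀ d, Don d → fwd d = true → ρ (ρ (ρ (ρ (ρ d)))) = d →
      ¬ (fwd (ρ (ρ (ρ d))) = false ∧ Don (ρ (ρ (ρ d)))) ∧
      ¬ (fwd (ρ (ρ (ρ (ρ d)))) = false ∧ Don (ρ (ρ (ρ (ρ d))))))
    (x y z u v : D) (hy : ρ x = y) (hz : ρ y = z) (hu : ρ z = u) (hv : ρ u = v) (hx5 : ρ v = x) :
    (decide (Don x) && fwd x && (decide (Don y) || decide (Don z) ||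
      (!fwd u && decide (Don u)) || (!fwd v && decide (Don v)))) = false := by
  by_cases hx : Don x
  · cases hfx : fwd x
    · simp
    · have h := hf x hx hfx
      rw [hy, hz] at h
      have h' := h5 x hx hfx (by rw [hy, hz, hu, hv, hx5])
      rw [hy, hz, hu, hv] at h'
      cases hfu : fwd u <;> cases hfv : fwd v <;> simp_all
  · simp [hx]

end

/-- E: combinatorics of one orbit -/
theorem orbit_bound [Finite D] (ρ : Equiv.Perm D) (fwd : D → Bool) (Don : D → Prop)
    (h1 : ∀ d, ρ d ≠ d)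
    (hf : ∀ d, Don d → fwd d = true → ¬ Don (ρ d) ∧ ¬ Don (ρ (ρ d)))
    (hb : ∀ d, Don d → fwd d = false → ¬ Don (ρ.symm d) ∧ ¬ Don (ρ.symm (ρ.symm d)))
    (hs : ∀ d, Don d → ρ (ρ d) ≠ d ∧ ρ (ρ (ρ d)) ≠ d)
    (h4 : ∀ d, Don d → ρ (ρ (ρ (ρ d))) ≠ d)
    (h5 : ∀ d, Don d → fwd d = true → ρ (ρ (ρ (ρ (ρ d)))) = d → 
      ¬ (fwd (ρ (ρ (ρ d))) = false ∧ Don (ρ (ρ (ρ d)))) ∧ 
      ¬ (fwd (ρ (ρ (ρ (ρ d)))) = false ∧ Don (ρ (ρ (ρ (ρ d)))))) (d : D) :
    4 + Nat.card {x : D // ρ.SameCycle d x ∧ Don x} ≤ Nat.card {x : D // ρ.SameCycle d x} + 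
      Nat.card {x : D // ρ.SameCycle d x ∧ (ρ (ρ x) = x ∨ ρ (ρ (ρ x)) = x)} := by
  classical
  have hhalf := half ρ d fwd Don hf hb
  set c := minimalPeriod ρ d with hc
  have hcard : Nat.card {x : D // ρ.SameCycle d x} = c := card_cycle' ρ d
  have hpos : 0 < c := per_pos ρ d
  have hper : ρ^[c] d = d := iterate_minimalPeriod
  -- every element of the cycle has period `c`
  have hperx : ∀ x, ρ.SameCycle d x → ρ^[c] x = x := by
    intro x hx
    obtain ⟨i, _, rfl⟩ := (sameCycle_iff ρ d x).mp hx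
    rw [← iterate_add_apply, Nat.add_comm, iterate_add_apply, hper]
  have hzero : (∀ x, ρ.SameCycle d x → ¬ Don x) →
      Nat.card {x : D // ρ.SameCycle d x ∧ Don x} = 0 := by
    intro h
    have : IsEmpty {x : D // ρ.SameCycle d x ∧ Don x} := ⟨fun x => h x.1 x.2.1 x.2.2⟩
    exact Nat.card_of_isEmpty
  have hfull : (∀ x, ρ.SameCycle d x → (ρ (ρ x) = x ∨ ρ (ρ (ρ x)) = x)) →
      Nat.card {x : D // ρ.SameCycle d x ∧ (ρ (ρ x) = x ∨ ρ (ρ (ρ x)) = x)} = c := by
    intro h
    rw [← hcard]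
    refine Nat.card_congr (Equiv.subtypeEquivRight fun x => ?_)
    exact ⟨fun hx => hx.1, fun hx => ⟨hx, h x hx⟩⟩
  rw [hcard] at hhalf ⊢
  rcases Nat.lt_or_ge c 7 with hlt | hge
  swap
  · omega
  have hcases : c = 1 ∨ c = 2 ∨ c = 3 ∨ c = 4 ∨ c = 5 ∨ c = 6 := by omega
  rcases hcases with h | h | h | h | h | h
  · rw [h] at hper
    exact absurd hper (h1 d)
  · have e1 : ∀ x, ρ.SameCycle d x → ρ (ρ x) = x := by
      intro x hx
      have := hperx x hx
      rw [h] at this
      exact this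
    rw [hzero fun x hx hD => (hs x hD).1 (e1 x hx), hfull fun x hx => Or.inl (e1 x hx)]
    omega
  · have e1 : ∀ x, ρ.SameCycle d x → ρ (ρ (ρ x)) = x := by
      intro x hx
      have := hperx x hx
      rw [h] at this
      exact this
    rw [hzero fun x hx hD => (hs x hD).2 (e1 x hx), hfull fun x hx => Or.inr (e1 x hx)]
    omega
  · have e1 : ∀ x, ρ.SameCycle d x → ρ (ρ (ρ (ρ x))) = x := by
      intro x hx
      have := hperx x hx
      rw [h] at this
      exact this
    rw [hzero fun x hx hD => (h4 x hD) (e1 x hx)]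
    omega
  · -- c = 5
    have hp : ρ (ρ (ρ (ρ (ρ d)))) = d := by
      rw [h] at hper
      exact hper
    have hN : Nat.card {x : D // ρ.SameCycle d x ∧ Don x} ≤ 1 := by
      rw [card_cycle, ← hc, h]
      simp only [sum_range_succ, sum_range_zero, Nat.zero_add, iterate_succ, iterate_zero,
        comp_apply, id_eq]
      refine five _ _ _ _ _ (fwd d) (fwd (ρ d)) (fwd (ρ (ρ d))) (fwd (ρ (ρ (ρ d))))
        (fwd (ρ (ρ (ρ (ρ d))))) ?_ ?_ ?_ ?_ ?_ ?_ ?_ ?_ ?_ ?_
      · exact condF5 ρ fwd Don hf h5 _ _ _ _ _ rfl rfl rfl rfl hp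
      · exact condF5 ρ fwd Don hf h5 _ _ _ _ _ rfl rfl rfl hp rfl
      · exact condF5 ρ fwd Don hf h5 _ _ _ _ _ rfl rfl hp rfl rfl
      · exact condF5 ρ fwd Don hf h5 _ _ _ _ _ rfl hp rfl rfl rfl
      · exact condF5 ρ fwd Don hf h5 _ _ _ _ _ hp rfl rfl rfl rfl
      · exact condB ρ fwd Don hb _ _ _ hp rfl
      · exact condB ρ fwd Don hb _ _ _ rfl hp
      · exact condB ρ fwd Don hb _ _ _ rfl rfl
      · exact condB ρ fwd Don hb _ _ _ rfl rfl
      · exact condB ρ fwd Don hb _ _ _ rfl rfl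
    omega
  · -- c = 6
    have hp : ρ (ρ (ρ (ρ (ρ (ρ d))))) = d := by
      rw [h] at hper
      exact hper
    have hN : Nat.card {x : D // ρ.SameCycle d x ∧ Don x} ≤ 2 := by
      rw [card_cycle, ← hc, h]
      simp only [sum_range_succ, sum_range_zero, Nat.zero_add, iterate_succ, iterate_zero,
        comp_apply, id_eq]
      refine six _ _ _ _ _ _ (fwd d) (fwd (ρ d)) (fwd (ρ (ρ d))) (fwd (ρ (ρ (ρ d))))
        (fwd (ρ (ρ (ρ (ρ d))))) (fwd (ρ (ρ (ρ (ρ (ρ d)))))) ?_ ?_ ?_ ?_ ?_ ?_ ?_ ?_ ?_ ?_ ?_ ?_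
      · exact condF ρ fwd Don hf _ _ _ rfl rfl
      · exact condF ρ fwd Don hf _ _ _ rfl rfl
      · exact condF ρ fwd Don hf _ _ _ rfl rfl
      · exact condF ρ fwd Don hf _ _ _ rfl rfl
      · exact condF ρ fwd Don hf _ _ _ rfl hp
      · exact condF ρ fwd Don hf _ _ _ hp rfl
      · exact condB ρ fwd Don hb _ _ _ hp rfl
      · exact condB ρ fwd Don hb _ _ _ rfl hp
      · exact condB ρ fwd Don hb _ _ _ rfl rfl
      · exact condB ρ fwd Don hb _ _ _ rfl rfl
      · exact condB ρ fwd Don hb _ _ _ rfl rfl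
      · exact condB ρ fwd Don hb _ _ _ rfl rfl
    omega

end Pool.Agent.H891R2.RL.RE
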