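import Pool.Agent.H891R2.RL.Defs

set_option autoImplicit false

namespace Pool.Agent.H891R2.RL.RF

open Finset

variable {D : Type}

theorem eqvGen_same [Finite D] (ρ : Equiv.Perm D) (x y : D) :
    Relation.EqvGen (fun x y : D => y = ρ x) x y ↔ ρ.SameCycle x y := by
  constructor
  · intro h
    induction h with
    | rel x y h => exact ⟨1, by simpa using h.symm⟩
    | refl x => exact Equiv.Perm.SameCycle.refl ρ x
    | symm x y _ ih => exact ih.symm
    | trans x y z _ _ ih1 ih2 => exact ih1.trans ih2
  · intro h
    obtain ⟨k, _, hk⟩ := h.exists_pow_eq'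
    clear h
    have key : ∀ k : ℕ, ∀ y : D, (ρ ^ k) x = y → Relation.EqvGen (fun x y : D => y = ρ x) x y := by
      intro k
      induction k with
      | zero => intro y hy; simp at hy; subst hy; exact Relation.EqvGen.refl _
      | succ k ih =>
        intro y hy
        rw [pow_succ', Equiv.Perm.mul_apply] at hy
        exact Relation.EqvGen.trans _ _ _ (ih _ rfl) (Relation.EqvGen.rel _ _ hy.symm)
    exact key _ _ hk

theorem discharge [Finite D] (ρ π : Equiv.Perm D) (P : D → Prop)
    (h : ∀ d, 4 + Nat.card {x : D // ρ.SameCycle d x ∧ P (π x)} ≤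
      Nat.card {x : D // ρ.SameCycle d x} + Nat.card {x : D // ρ.SameCycle d x ∧ P x}) :
    4 * Nat.card (Quot fun x y : D => y = ρ x) ≤ Nat.card D := by
  classical
  have := Fintype.ofFinite D
  set r : D → D → Prop := fun x y => y = ρ x with hr
  have hQ : Finite (Quot r) := Quot.finite _
  have := Fintype.ofFinite (Quot r)
  have hmk : ∀ x y, Quot.mk r x = Quot.mk r y ↔ ρ.SameCycle x y := by
    intro x y
    rw [Quot.eq]
    exact eqvGen_same ρ x y
  -- count by fibers
  have hcount : ∀ R : D → Prop, Nat.card {x : D // R x} =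
      ∑ q : Quot r, Nat.card {x : D // ρ.SameCycle q.out x ∧ R x} := by
    intro R
    rw [Nat.card_eq_fintype_card, Fintype.card_subtype]
    rw [Finset.card_eq_sum_card_fiberwise (f := fun x => Quot.mk r x) (t := univ) (by simp)]
    apply Finset.sum_congr rfl
    intro q _
    rw [Nat.card_eq_fintype_card, Fintype.card_subtype]
    congr 1
    ext x
    simp only [mem_filter, mem_univ, true_and]
    rw [← hmk, Quot.out_eq]
    constructor
    · rintro ⟨h1, h2⟩; exact ⟨h2.symm, h1⟩
    · rintro ⟨h1, h2⟩; exact ⟨h2, h1.symm⟩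
  have hsum := Finset.sum_le_sum (s := (univ : Finset (Quot r))) (fun q _ => h q.out)
  rw [Finset.sum_add_distrib, Finset.sum_add_distrib] at hsum
  rw [← hcount (fun x => P (π x)), ← hcount P] at hsum
  have h1 : ∑ q : Quot r, Nat.card {x : D // ρ.SameCycle q.out x} = Nat.card D := by
    have := hcount (fun _ => True)
    simp only [and_true] at this
    rw [← this]
    exact Nat.card_congr (Equiv.subtypeUnivEquiv (fun _ => trivial))
  have h2 : Nat.card {x : D // P (π x)} = Nat.card {x : D // P x} :=
    Nat.card_congr (π.subtypeEquiv (fun _ => Iff.rfl))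
  rw [h1, h2] at hsum
  simp only [Finset.sum_const, card_univ, smul_eq_mul] at hsum
  rw [Nat.card_eq_fintype_card]
  omega

end Pool.Agent.H891R2.RL.RF
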