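import Pool.Agent.H891R2.RL.Defs

set_option autoImplicit false

namespace Pool.Agent.H891R2.RL.RG1

open Finset

/-- G1: finite sets of edges of a tree have leaves -/
theorem leaf {n : ℕ} (T : SimpleGraph (Fin n)) (hT : T.IsTree) (ini ter : T.edgeSet → Fin n)
    (h : ∀ e, s(ini e, ter e) = e.1) (S : Finset T.edgeSet) (hS : S.Nonempty) :
    ∃ e ∈ S, (∀ e' ∈ S, e' ≠ e → ini e ≠ ini e' ∧ ini e ≠ ter e') ∨ 
      (∀ e' ∈ S, e' ≠ e → ter e ≠ ini e' ∧ ter e ≠ ter e') := by
  classical
  -- the graph of the edges in `S`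
  let G : SimpleGraph (Fin n) := SimpleGraph.fromEdgeSet {x | ∃ e ∈ S, e.1 = x}
  have hGT : G ≤ T := by
    intro a b hab
    rw [SimpleGraph.fromEdgeSet_adj] at hab
    obtain ⟨⟨e, _, he⟩, _⟩ := hab
    have := e.2
    rw [he] at this
    exact (SimpleGraph.mem_edgeSet T).1 this
  have hGa : G.IsAcyclic := hT.isAcyclic.anti hGT
  have hadj : ∀ e ∈ S, G.Adj (ini e) (ter e) := by
    intro e he
    rw [SimpleGraph.fromEdgeSet_adj]
    refine ⟨⟨e, he, (h e).symm⟩, ?_⟩
    have h1 : T.Adj (ini e) (ter e) := by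
      have := e.2
      rw [← h e] at this
      exact (SimpleGraph.mem_edgeSet T).1 this
    exact h1.ne
  obtain ⟨e₀, he₀⟩ := hS
  have : Nonempty (Fin n) := ⟨ini e₀⟩
  obtain ⟨u, v, p, hp, hmax⟩ := SimpleGraph.Walk.exists_isPath_forall_isPath_length_le_length G
  have hnil : ¬ p.Nil := by
    intro hn
    have h1 : p.length = 0 := SimpleGraph.Walk.nil_iff_length_eq.1 hn
    have h2 := hmax _ _ (hadj e₀ he₀).toWalk (by
      simpa using (hadj e₀ he₀).ne)
    rw [h1] at h2
    simp at h2
  have huniq : ∀ w, G.Adj u w → w = p.snd := by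
    intro w hadj'
    apply hGa.eq_snd_of_adj_start hp hadj'
    have : ¬ (p.cons hadj'.symm).IsPath := by
      intro hc
      have := hmax _ _ _ hc
      simp at this
    grind [hp.cons]
  have hus : G.Adj u p.snd := p.adj_snd hnil
  have hus' := hus
  rw [SimpleGraph.fromEdgeSet_adj] at hus'
  obtain ⟨⟨e, heS, he⟩, hne⟩ := hus'
  have key : ∀ e' ∈ S, e' ≠ e → u ≠ ini e' ∧ u ≠ ter e' := by
    intro e' he' hne'
    have ha := hadj e' he'
    constructor
    · intro hu
      apply hne'
      rw [← hu] at ha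
      have h3 := huniq _ ha
      apply Subtype.ext
      rw [← h e', he, ← hu, h3]
    · intro hu
      apply hne'
      rw [← hu] at ha
      have h3 := huniq _ ha.symm
      apply Subtype.ext
      rw [← h e', he, ← hu, h3, Sym2.eq_swap]
  have hmem : u = ini e ∨ u = ter e := by
    have h1 : s(ini e, ter e) = s(u, p.snd) := by rw [h e, he]
    have h2 : u ∈ s(ini e, ter e) := by rw [h1]; exact Sym2.mem_mk_left _ _
    exact Sym2.mem_iff.1 h2
  refine ⟨e, heS, ?_⟩
  rcases hmem with hu | hu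
  · left
    rw [← hu]
    exact key
  · right
    rw [← hu]
    exact key

end Pool.Agent.H891R2.RL.RG1
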