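import Pool.Agent.H891R2.RL.Defs

set_option autoImplicit false

namespace Pool.Agent.H891R2.RL.RG2

open Finset

variable {V E : Type}

/-- the end points of a set of edges -/
def ends [DecidableEq V] (ini ter : E → V) (S : Finset E) : Finset V :=
  S.biUnion (fun e => ({ini e, ter e} : Finset V))

theorem ends_insert [DecidableEq E] [DecidableEq V] (ini ter : E → V) (S : Finset E) (e : E) :
    ends ini ter (insert e S) = {ini e, ter e} ∪ ends ini ter S := by
  unfold ends
  rw [Finset.biUnion_insert]

theorem ends_card_le [DecidableEq V] (ini ter : E → V) (S : Finset E) :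
    (ends ini ter S).card ≤ 2 * S.card := by
  unfold ends
  rw [mul_comm]
  apply Finset.card_biUnion_le_card_mul
  intro e _
  exact Finset.card_le_two

theorem meet_card [Fintype E] [DecidableEq E] [DecidableEq V] (ini ter : E → V) (Δ : ℕ)
    (hΔ : ∀ v, (univ.filter (fun e => ini e = v ∨ ter e = v)).card ≤ Δ) (A : Finset V) :
    (univ.filter (fun e => ini e ∈ A ∨ ter e ∈ A)).card ≤ A.card * Δ := by
  have h : univ.filter (fun e => ini e ∈ A ∨ ter e ∈ A) ⊆
      A.biUnion (fun v => univ.filter (fun e => ini e = v ∨ ter e = v)) := by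
    intro e he
    rw [Finset.mem_filter] at he
    rw [Finset.mem_biUnion]
    rcases he.2 with h | h
    · exact ⟨ini e, h, by simp⟩
    · exact ⟨ter e, h, by simp⟩
  refine le_trans (Finset.card_le_card h) ?_
  apply Finset.card_biUnion_le_card_mul
  intro v _
  exact hΔ v

/-- adding an edge with a new end point -/
theorem one_edge [DecidableEq E] [DecidableEq V] (ini ter : E → V)
    (hne : ∀ e, ini e ≠ ter e) (n : ℕ) (hn1 : 1 ≤ n) (S : Finset E) (k : ℕ) (e : E)
    (h : ini e ∉ ends ini ter S ∨ ter e ∉ ends ini ter S) :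
    (n : ℝ) ^ (k + 1) / (n : ℝ) ^ (ends ini ter (insert e S)).card ≤
      (n : ℝ) ^ k / (n : ℝ) ^ (ends ini ter S).card * (1 / n) +
      (if ini e ∈ ends ini ter S ∨ ter e ∈ ends ini ter S then
        (n : ℝ) ^ k / (n : ℝ) ^ (ends ini ter S).card else 0) := by
  have hn : (0 : ℝ) < n := by exact_mod_cast hn1
  rw [ends_insert]
  obtain ⟨A, hA⟩ : ∃ A, A = ends ini ter S := ⟨_, rfl⟩
  rw [← hA] at h ⊢
  have hpos : (0 : ℝ) ≤ (n : ℝ) ^ k / (n : ℝ) ^ A.card * (1 / n) := by positivity
  split_ifs with h2
  · have hc : ({ini e, ter e} ∪ A).card = A.card + 1 := by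
      rcases h with h | h
      · have h3 : ter e ∈ A := by tauto
        have : ({ini e, ter e} ∪ A) = insert (ini e) A := by
          ext v
          simp only [Finset.mem_union, Finset.mem_insert, Finset.mem_singleton]
          constructor
          · rintro ((h4 | h4) | h4)
            · exact Or.inl h4
            · rw [h4]; exact Or.inr h3
            · exact Or.inr h4
          · rintro (h4 | h4)
            · exact Or.inl (Or.inl h4)
            · exact Or.inr h4
        rw [this, Finset.card_insert_of_notMem h]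
      · have h3 : ini e ∈ A := by tauto
        have : ({ini e, ter e} ∪ A) = insert (ter e) A := by
          ext v
          simp only [Finset.mem_union, Finset.mem_insert, Finset.mem_singleton]
          constructor
          · rintro ((h4 | h4) | h4)
            · rw [h4]; exact Or.inr h3
            · exact Or.inl h4
            · exact Or.inr h4
          · rintro (h4 | h4)
            · exact Or.inl (Or.inr h4)
            · exact Or.inr h4
        rw [this, Finset.card_insert_of_notMem h]
    rw [hc]
    have e1 : (n : ℝ) ^ (k + 1) / (n : ℝ) ^ (A.card + 1) = (n : ℝ) ^ k / (n : ℝ) ^ A.card := by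
      rw [pow_succ, pow_succ, mul_div_mul_right _ _ hn.ne']
    rw [e1]
    linarith
  · push Not at h2
    have hc : ({ini e, ter e} ∪ A).card = A.card + 2 := by
      rw [Finset.card_union_of_disjoint, Finset.card_pair (hne e), add_comm]
      rw [Finset.disjoint_left]
      intro v hv
      simp only [Finset.mem_insert, Finset.mem_singleton] at hv
      rcases hv with rfl | rfl
      · exact h2.1
      · exact h2.2
    rw [hc]
    have e1 : (n : ℝ) ^ (k + 1) / (n : ℝ) ^ (A.card + 2) =
        (n : ℝ) ^ k / (n : ℝ) ^ A.card * (1 / n) := by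
      rw [pow_succ, show A.card + 2 = A.card + 1 + 1 from rfl, pow_succ, pow_succ]
      field_simp
    rw [e1]
    linarith

theorem step [Fintype E] [DecidableEq E] [DecidableEq V] (ini ter : E → V)
    (hne : ∀ e, ini e ≠ ter e) (n Δ : ℕ) (hn : Fintype.card E ≤ n) (hn1 : 1 ≤ n)
    (hΔ : ∀ v, (univ.filter (fun e => ini e = v ∨ ter e = v)).card ≤ Δ)
    (hleaf : ∀ S : Finset E, S.Nonempty → ∃ e ∈ S, (∀ e' ∈ S, e' ≠ e → ini e ≠ ini e' ∧ ini e ≠ ter e') ∨
      (∀ e' ∈ S, e' ≠ e → ter e ≠ ini e' ∧ ter e ≠ ter e')) (k : ℕ) :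
    ∑ S ∈ powersetCard (k + 1) (univ : Finset E),
      (n : ℝ) ^ (k + 1) / (n : ℝ) ^ (ends ini ter S).card ≤
      (1 + 2 * k * Δ) * ∑ S ∈ powersetCard k (univ : Finset E),
        (n : ℝ) ^ k / (n : ℝ) ^ (ends ini ter S).card := by
  classical
  have hn' : (0 : ℝ) < n := by exact_mod_cast hn1
  -- leaves
  have hl : ∀ S : Finset E, S.Nonempty → ∃ e ∈ S, ini e ∉ ends ini ter (S.erase e) ∨
      ter e ∉ ends ini ter (S.erase e) := by
    intro S hS
    obtain ⟨e, he, h⟩ := hleaf S hS
    refine ⟨e, he, ?_⟩
    rcases h with h | h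
    · left
      intro h2
      unfold ends at h2
      rw [Finset.mem_biUnion] at h2
      obtain ⟨e', he', h3⟩ := h2
      rw [Finset.mem_erase] at he'
      rw [Finset.mem_insert, Finset.mem_singleton] at h3
      have h4 := h e' he'.2 he'.1
      tauto
    · right
      intro h2
      unfold ends at h2
      rw [Finset.mem_biUnion] at h2
      obtain ⟨e', he', h3⟩ := h2
      rw [Finset.mem_erase] at he'
      rw [Finset.mem_insert, Finset.mem_singleton] at h3
      have h4 := h e' he'.2 he'.1
      tauto
  calc ∑ S ∈ powersetCard (k + 1) (univ : Finset E),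
      (n : ℝ) ^ (k + 1) / (n : ℝ) ^ (ends ini ter S).card
      ≤ ∑ S ∈ powersetCard (k + 1) (univ : Finset E),
          ∑ e ∈ S.filter (fun e => ini e ∉ ends ini ter (S.erase e) ∨
            ter e ∉ ends ini ter (S.erase e)),
          (n : ℝ) ^ (k + 1) / (n : ℝ) ^ (ends ini ter S).card := by
        refine Finset.sum_le_sum fun S hS => ?_
        rw [Finset.mem_powersetCard] at hS
        have hSne : S.Nonempty := by
          rw [← Finset.card_pos]; omega
        obtain ⟨e, he, h⟩ := hl S hSne
        rw [Finset.sum_const, nsmul_eq_mul]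
        have h1 : 1 ≤ (S.filter (fun e => ini e ∉ ends ini ter (S.erase e) ∨
            ter e ∉ ends ini ter (S.erase e))).card := by
          rw [Nat.succ_le_iff, Finset.card_pos]
          exact ⟨e, Finset.mem_filter.2 ⟨he, h⟩⟩
        have h2 : (1 : ℝ) ≤ ((S.filter (fun e => ini e ∉ ends ini ter (S.erase e) ∨
            ter e ∉ ends ini ter (S.erase e))).card : ℝ) := by exact_mod_cast h1
        have h3 : (0 : ℝ) ≤ (n : ℝ) ^ (k + 1) / (n : ℝ) ^ (ends ini ter S).card := by positivity
        nlinarith
    _ = ∑ S ∈ powersetCard k (univ : Finset E),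
          ∑ e ∈ univ.filter (fun e => e ∉ S ∧ (ini e ∉ ends ini ter S ∨ ter e ∉ ends ini ter S)),
          (n : ℝ) ^ (k + 1) / (n : ℝ) ^ (ends ini ter (insert e S)).card := by
        rw [Finset.sum_sigma', Finset.sum_sigma']
        refine Finset.sum_nbij' (fun x => (⟨x.1.erase x.2, x.2⟩ : Sigma fun _ : Finset E => E))
          (fun x => (⟨insert x.2 x.1, x.2⟩ : Sigma fun _ : Finset E => E)) ?_ ?_ ?_ ?_ ?_
        · rintro ⟨S, e⟩ h
          simp only [Finset.mem_sigma, Finset.mem_powersetCard, Finset.mem_filter,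
            Finset.subset_univ, Finset.mem_univ, true_and] at h ⊢
          exact ⟨by rw [Finset.card_erase_of_mem h.2.1, h.1]; rfl,
            Finset.notMem_erase _ _, h.2.2⟩
        · rintro ⟨S, e⟩ h
          simp only [Finset.mem_sigma, Finset.mem_powersetCard, Finset.mem_filter,
            Finset.subset_univ, Finset.mem_univ, true_and] at h ⊢
          refine ⟨by rw [Finset.card_insert_of_notMem h.2.1, h.1],
            Finset.mem_insert_self _ _, ?_⟩
          rw [Finset.erase_insert h.2.1]
          exact h.2.2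
        · rintro ⟨S, e⟩ h
          simp only [Finset.mem_sigma, Finset.mem_powersetCard, Finset.mem_filter,
            Finset.subset_univ, Finset.mem_univ, true_and] at h ⊢
          rw [Finset.insert_erase h.2.1]
        · rintro ⟨S, e⟩ h
          simp only [Finset.mem_sigma, Finset.mem_powersetCard, Finset.mem_filter,
            Finset.subset_univ, Finset.mem_univ, true_and] at h ⊢
          rw [Finset.erase_insert h.2.1]
        · rintro ⟨S, e⟩ h
          simp only [Finset.mem_sigma, Finset.mem_powersetCard, Finset.mem_filter,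
            Finset.subset_univ, Finset.mem_univ, true_and] at h ⊢
          rw [Finset.insert_erase h.2.1]
    _ ≤ ∑ S ∈ powersetCard k (univ : Finset E),
          (1 + 2 * k * Δ) * ((n : ℝ) ^ k / (n : ℝ) ^ (ends ini ter S).card) := by
        refine Finset.sum_le_sum fun S hS => ?_
        rw [Finset.mem_powersetCard] at hS
        obtain ⟨w, hw⟩ : ∃ w : ℝ, w = (n : ℝ) ^ k / (n : ℝ) ^ (ends ini ter S).card := ⟨_, rfl⟩
        have hw0 : 0 ≤ w := by rw [hw]; positivity
        have h1 : ∑ e ∈ univ.filter (fun e => e ∉ S ∧ (ini e ∉ ends ini ter S ∨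
            ter e ∉ ends ini ter S)),
            (n : ℝ) ^ (k + 1) / (n : ℝ) ^ (ends ini ter (insert e S)).card ≤
            ∑ e ∈ univ.filter (fun e => e ∉ S ∧ (ini e ∉ ends ini ter S ∨
            ter e ∉ ends ini ter S)), (w * (1 / n) +
              (if ini e ∈ ends ini ter S ∨ ter e ∈ ends ini ter S then w else 0)) := by
          refine Finset.sum_le_sum fun e he => ?_
          rw [Finset.mem_filter] at he
          rw [hw]
          exact one_edge ini ter hne n hn1 S k e he.2.2
        refine le_trans h1 ?_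
        have h2 : ∑ e ∈ univ.filter (fun e => e ∉ S ∧ (ini e ∉ ends ini ter S ∨
            ter e ∉ ends ini ter S)), (w * (1 / n) +
              (if ini e ∈ ends ini ter S ∨ ter e ∈ ends ini ter S then w else 0)) ≤
            ∑ e : E, (w * (1 / n) +
              (if ini e ∈ ends ini ter S ∨ ter e ∈ ends ini ter S then w else 0)) := by
          apply Finset.sum_le_sum_of_subset_of_nonneg (Finset.filter_subset _ _)
          intro e _ _
          have : (0 : ℝ) ≤ w * (1 / n) := by positivity
          split_ifs <;> linarith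
        refine le_trans h2 ?_
        rw [Finset.sum_add_distrib, Finset.sum_const, Finset.card_univ, nsmul_eq_mul,
          ← Finset.sum_filter, Finset.sum_const, nsmul_eq_mul, ← hw]
        have h3 : ((univ.filter (fun e => ini e ∈ ends ini ter S ∨ ter e ∈ ends ini ter S)).card : ℝ)
            ≤ 2 * k * Δ := by
          have h4 := meet_card ini ter Δ hΔ (ends ini ter S)
          have h5 := ends_card_le ini ter S
          rw [hS.2] at h5
          have h6 : (univ.filter (fun e => ini e ∈ ends ini ter S ∨ ter e ∈ ends ini ter S)).card ≤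
              2 * k * Δ := le_trans h4 (Nat.mul_le_mul_right _ h5)
          exact_mod_cast h6
        have h7 : (Fintype.card E : ℝ) * (w * (1 / n)) ≤ w := by
          have h8 : (Fintype.card E : ℝ) ≤ n := by exact_mod_cast hn
          have h9 : (Fintype.card E : ℝ) * (w * (1 / n)) ≤ n * (w * (1 / n)) :=
            mul_le_mul_of_nonneg_right h8 (by positivity)
          have h10 : (n : ℝ) * (w * (1 / n)) = w := by field_simp
          linarith
        have h11 := mul_le_mul_of_nonneg_right h3 hw0
        linarith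
    _ = _ := by rw [Finset.mul_sum]

/-- G2: weighted number of sets of edges with few end points -/
theorem weight_bound [Fintype E] [DecidableEq E] [DecidableEq V] (ini ter : E → V) 
    (hne : ∀ e, ini e ≠ ter e) (n Δ : ℕ) (hn : Fintype.card E ≤ n) (hn1 : 1 ≤ n) (hΔ1 : 1 ≤ Δ)
    (hΔ : ∀ v, (univ.filter (fun e => ini e = v ∨ ter e = v)).card ≤ Δ)
    (hleaf : ∀ S : Finset E, S.Nonempty → ∃ e ∈ S, (∀ e' ∈ S, e' ≠ e → ini e ≠ ini e' ∧ ini e ≠ ter e') ∨ 
      (∀ e' ∈ S, e' ≠ e → ter e ≠ ini e' ∧ ter e ≠ ter e')) (k : ℕ) (hk : 1 ≤ k) :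
    ∑ S ∈ powersetCard k (univ : Finset E), 
      (n : ℝ) ^ k / (n : ℝ) ^ (S.biUnion (fun e => ({ini e, ter e} : Finset V))).card ≤ 
      (2 * k * Δ : ℝ) ^ (k - 1) := by
  have hst := step ini ter hne n Δ hn hn1 hΔ hleaf
  have hΔ' : (1 : ℝ) ≤ Δ := by exact_mod_cast hΔ1
  change ∑ S ∈ powersetCard k (univ : Finset E),
      (n : ℝ) ^ k / (n : ℝ) ^ (ends ini ter S).card ≤ (2 * k * Δ : ℝ) ^ (k - 1)
  induction k, hk using Nat.le_induction with
  | base =>
    refine le_trans (hst 0) ?_
    simp [ends]
  | succ k hk ih =>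
    refine le_trans (hst k) ?_
    have hk' : (1 : ℝ) ≤ k := by exact_mod_cast hk
    have h1 : (1 + 2 * k * Δ : ℝ) ≤ 2 * ((k + 1 : ℕ) : ℝ) * Δ := by
      push_cast
      nlinarith
    have h2 : (2 * k * Δ : ℝ) ^ (k - 1) ≤ (2 * ((k + 1 : ℕ) : ℝ) * Δ) ^ (k - 1) := by
      apply pow_le_pow_left₀ (by positivity)
      push_cast
      nlinarith
    calc (1 + 2 * k * Δ : ℝ) * ∑ S ∈ powersetCard k (univ : Finset E),
          (n : ℝ) ^ k / (n : ℝ) ^ (ends ini ter S).card
        ≤ (2 * ((k + 1 : ℕ) : ℝ) * Δ) * (2 * ((k + 1 : ℕ) : ℝ) * Δ) ^ (k - 1) := by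
          apply mul_le_mul h1 (le_trans ih h2)
          · exact Finset.sum_nonneg fun S _ => by positivity
          · positivity
      _ = (2 * ((k + 1 : ℕ) : ℝ) * Δ) ^ (k + 1 - 1) := by
          rw [← pow_succ']
          congr 1
          omega

end Pool.Agent.H891R2.RL.RG2
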