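import Pool.Agent.H891R2.RL.Defs

/-!
# The number of labellings with few letters on a set of edges
-/

set_option autoImplicit false

namespace Pool.Agent.H891R2.RL.RG3

open Finset Pool.Agent.H891R2.RL

variable {E : Type}

theorem exists_cover {n r : ℕ} (hn : 1 ≤ n) (X : Finset (Fin n)) (hX : X.card ≤ r) :
    ∃ t : Fin r → Fin n, X ⊆ univ.image t := by
  refine ⟨fun i => X.toList.getD i.val ⟨0, hn⟩, ?_⟩
  intro x hx
  have hx' : x ∈ X.toList := by simpa using hx
  obtain ⟨j, hj, hjx⟩ := List.getElem_of_mem hx'
  have hlen : X.toList.length = X.card := by simp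
  refine mem_image.2 ⟨⟨j, by omega⟩, mem_univ _, ?_⟩
  rw [List.getD_eq_getElem _ _ hj]
  exact hjx

theorem label_count [Fintype E] [DecidableEq E] {n : ℕ} (hn : 1 ≤ n) (ini ter : E → Fin n)
    (S : Finset E) (hS : S.Nonempty) :
    ((univ.filter (fun lab : E → Fin n =>
      ((⟨ini, ter, lab⟩ : LOG (Fin n) E).letters S).card < 2 * S.card)).card : ℝ) * n ≤
      (2 * S.card : ℝ) ^ S.card * (n : ℝ) ^ Fintype.card E *
        ((n : ℝ) ^ S.card / (n : ℝ) ^ (S.biUnion (fun e => ({ini e, ter e} : Finset (Fin n)))).card) := by
  classical
  set A : Finset (Fin n) := S.biUnion (fun e => ({ini e, ter e} : Finset (Fin n))) with hA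
  set k := S.card with hk
  have hk1 : 1 ≤ k := hS.card_pos
  have hkm : k ≤ Fintype.card E := S.card_le_univ
  have hsub : ∀ lab : E → Fin n, A ∪ S.image lab ⊆ (⟨ini, ter, lab⟩ : LOG (Fin n) E).letters S := by
    intro lab x hx
    rw [LOG.letters, mem_biUnion]
    rcases mem_union.1 hx with hx | hx
    · obtain ⟨e, he, hxe⟩ := mem_biUnion.1 hx
      refine ⟨e, he, ?_⟩
      simp only [mem_insert, mem_singleton] at hxe
      simp only [LOG.lt, mem_insert, mem_singleton]
      tauto
    · obtain ⟨e, he, rfl⟩ := mem_image.1 hx
      refine ⟨e, he, ?_⟩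
      simp [LOG.lt]
  by_cases hv : 2 * k ≤ A.card
  · have hempty : (univ.filter (fun lab : E → Fin n =>
      ((⟨ini, ter, lab⟩ : LOG (Fin n) E).letters S).card < 2 * k)) = ∅ := by
      apply filter_eq_empty_iff.2
      intro lab _ h
      have := card_le_card ((subset_union_left (s₂ := S.image lab)).trans (hsub lab))
      omega
    rw [hempty]
    simp only [card_empty, Nat.cast_zero, zero_mul]
    positivity
  · push Not at hv
    set r := 2 * k - 1 - A.card with hr
    have hcover : (univ.filter (fun lab : E → Fin n =>
        ((⟨ini, ter, lab⟩ : LOG (Fin n) E).letters S).card < 2 * k)) ⊆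
        (univ : Finset (Fin r → Fin n)).biUnion (fun t =>
          Fintype.piFinset (fun e => if e ∈ S then A ∪ univ.image t else univ)) := by
      intro lab hlab
      simp only [mem_filter, mem_univ, true_and] at hlab
      have h1 := card_le_card (hsub lab)
      have h2 : (S.image lab \ A).card ≤ r := by
        have : A ∪ S.image lab = A ∪ (S.image lab \ A) := by simp
        rw [this, card_union_of_disjoint disjoint_sdiff] at h1
        omega
      obtain ⟨t, ht⟩ := exists_cover hn _ h2
      refine mem_biUnion.2 ⟨t, mem_univ _, ?_⟩
      rw [Fintype.mem_piFinset]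
      intro e
      by_cases he : e ∈ S
      · rw [if_pos he]
        by_cases hA' : lab e ∈ A
        · exact mem_union_left _ hA'
        · exact mem_union_right _ (ht (mem_sdiff.2 ⟨mem_image_of_mem _ he, hA'⟩))
      · rw [if_neg he]; exact mem_univ _
    have hcount : (univ.filter (fun lab : E → Fin n =>
        ((⟨ini, ter, lab⟩ : LOG (Fin n) E).letters S).card < 2 * k)).card ≤
        n ^ r * ((2 * k) ^ k * n ^ (Fintype.card E - k)) := by
      calc _ ≤ _ := card_le_card hcover
        _ ≤ ∑ t : Fin r → Fin n, (Fintype.piFinset
            (fun e => if e ∈ S then A ∪ univ.image t else univ)).card := card_biUnion_le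
        _ ≤ ∑ t : Fin r → Fin n, ((2 * k) ^ k * n ^ (Fintype.card E - k)) := by
          apply sum_le_sum
          intro t _
          rw [Fintype.card_piFinset]
          have hle : (A ∪ univ.image t).card ≤ 2 * k := by
            have h1 : (univ.image t).card ≤ r := by
              simpa using (card_image_le (s := (univ : Finset (Fin r))) (f := t))
            have h2 := card_union_le A (univ.image t)
            omega
          calc ∏ e, (if e ∈ S then A ∪ univ.image t else univ).card
              = ∏ e, (if e ∈ S then (A ∪ univ.image t).card else n) := by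
                apply prod_congr rfl
                intro e _
                split_ifs
                · rfl
                · simp
            _ = (A ∪ univ.image t).card ^ k * n ^ (Fintype.card E - k) := by
                rw [prod_ite]
                simp only [prod_const]
                have e1 : (univ.filter (fun e => e ∈ S)) = S := by simp
                have e2 : (univ.filter (fun e => e ∉ S)).card = Fintype.card E - k := by
                  rw [filter_not, e1, card_sdiff_of_subset (subset_univ _), card_univ]
                rw [e1, e2]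
            _ ≤ _ := Nat.mul_le_mul_right _ (Nat.pow_le_pow_left hle _)
        _ = _ := by simp
    have hn0 : (0 : ℝ) < n := by exact_mod_cast hn
    have hcR : ((univ.filter (fun lab : E → Fin n =>
        ((⟨ini, ter, lab⟩ : LOG (Fin n) E).letters S).card < 2 * k)).card : ℝ) ≤
        (n : ℝ) ^ r * ((2 * k) ^ k * (n : ℝ) ^ (Fintype.card E - k)) := by
      exact_mod_cast hcount
    calc _ ≤ ((n : ℝ) ^ r * ((2 * k) ^ k * (n : ℝ) ^ (Fintype.card E - k))) * n :=
          mul_le_mul_of_nonneg_right hcR hn0.le
      _ = (2 * k : ℝ) ^ k * (n : ℝ) ^ Fintype.card E * ((n : ℝ) ^ k / (n : ℝ) ^ A.card) := by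
          have e : (n : ℝ) ^ r * (n : ℝ) ^ (Fintype.card E - k) * n * (n : ℝ) ^ A.card =
              (n : ℝ) ^ Fintype.card E * (n : ℝ) ^ k := by
            rw [← pow_add, ← pow_succ, ← pow_add, ← pow_add]
            congr 1
            omega
          field_simp
          linear_combination e

end Pool.Agent.H891R2.RL.RG3
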