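import Mathlib

set_option autoImplicit false

namespace Pool.Agent.H891R2.RL.RG4

theorem numerics (n Delta : ℕ) (hn : 3 ≤ n) (hD : 1 ≤ Delta) (B : ℝ)
    (hB : B * n ≤ ∑ k ∈ Finset.Icc (1:ℕ) 7,
      (2 * k : ℝ) ^ k * (n : ℝ) ^ (n - 1) * (2 * k * Delta) ^ (k - 1)) :
    B ≤ 7 * 14 ^ 13 * Real.exp 4 * (Delta : ℝ) ^ 6 / n * ((n : ℝ) - 2) ^ (n - 1) := by
  have hn0 : (3 : ℝ) ≤ n := by exact_mod_cast hn
  have hnpos : (0 : ℝ) < n := by linarith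
  have hn2 : (0 : ℝ) < (n : ℝ) - 2 := by linarith
  have hD0 : (1 : ℝ) ≤ Delta := by exact_mod_cast hD
  -- each summand
  have hs : ∑ k ∈ Finset.Icc (1:ℕ) 7,
      (2 * k : ℝ) ^ k * (n : ℝ) ^ (n - 1) * (2 * k * Delta) ^ (k - 1) ≤
      ∑ k ∈ Finset.Icc (1:ℕ) 7, (14 : ℝ) ^ 7 * (n : ℝ) ^ (n - 1) * (14 * Delta) ^ 6 := by
    apply Finset.sum_le_sum
    intro k hk
    rw [Finset.mem_Icc] at hk
    have hk1 : (1 : ℝ) ≤ k := by exact_mod_cast hk.1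
    have hk7 : (k : ℝ) ≤ 7 := by exact_mod_cast hk.2
    have h1 : (2 * k : ℝ) ^ k ≤ (14 : ℝ) ^ 7 := by
      calc (2 * k : ℝ) ^ k ≤ (14 : ℝ) ^ k := by
            apply pow_le_pow_left₀ (by linarith); linarith
        _ ≤ (14 : ℝ) ^ 7 := pow_le_pow_right₀ (by norm_num) hk.2
    have h2 : (2 * k * Delta : ℝ) ^ (k - 1) ≤ (14 * Delta : ℝ) ^ 6 := by
      calc (2 * k * Delta : ℝ) ^ (k - 1) ≤ (14 * Delta : ℝ) ^ (k - 1) := by
            apply pow_le_pow_left₀ (by positivity)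
            apply mul_le_mul_of_nonneg_right _ (by linarith)
            linarith
        _ ≤ (14 * Delta : ℝ) ^ 6 := pow_le_pow_right₀ (by nlinarith) (by omega)
    have h3 : (0 : ℝ) ≤ (n : ℝ) ^ (n - 1) := by positivity
    gcongr
  have hs2 : ∑ k ∈ Finset.Icc (1:ℕ) 7, (14 : ℝ) ^ 7 * (n : ℝ) ^ (n - 1) * (14 * Delta) ^ 6 =
      7 * 14 ^ 13 * (Delta : ℝ) ^ 6 * (n : ℝ) ^ (n - 1) := by
    rw [Finset.sum_const, Nat.card_Icc]
    simp only [nsmul_eq_mul]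
    push_cast
    ring
  -- n^(n-1) ≤ exp 4 * (n-2)^(n-1)
  have he : (n : ℝ) ^ (n - 1) ≤ Real.exp 4 * ((n : ℝ) - 2) ^ (n - 1) := by
    have h1 : (n : ℝ) ≤ Real.exp (2 / ((n : ℝ) - 2)) * ((n : ℝ) - 2) := by
      have h := Real.add_one_le_exp (2 / ((n : ℝ) - 2))
      have h4 : (n : ℝ) = (2 / ((n : ℝ) - 2) + 1) * ((n : ℝ) - 2) := by
        field_simp
        ring
      calc (n : ℝ) = (2 / ((n : ℝ) - 2) + 1) * ((n : ℝ) - 2) := h4
        _ ≤ _ := mul_le_mul_of_nonneg_right h hn2.le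
    calc (n : ℝ) ^ (n - 1) ≤ (Real.exp (2 / ((n : ℝ) - 2)) * ((n : ℝ) - 2)) ^ (n - 1) :=
          pow_le_pow_left₀ hnpos.le h1 _
      _ = Real.exp (2 / ((n : ℝ) - 2)) ^ (n - 1) * ((n : ℝ) - 2) ^ (n - 1) := by rw [mul_pow]
      _ ≤ Real.exp 4 * ((n : ℝ) - 2) ^ (n - 1) := by
          apply mul_le_mul_of_nonneg_right _ (by positivity)
          rw [← Real.exp_nat_mul]
          apply Real.exp_le_exp.mpr
          rw [Nat.cast_sub (by omega)]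
          rw [mul_div_assoc', div_le_iff₀ hn2]
          push_cast
          linarith
  have hfin : B * n ≤ 7 * 14 ^ 13 * (Delta : ℝ) ^ 6 * (Real.exp 4 * ((n : ℝ) - 2) ^ (n - 1)) := by
    calc B * n ≤ _ := hB
      _ ≤ _ := hs
      _ = _ := hs2
      _ ≤ _ := by
          apply mul_le_mul_of_nonneg_left he
          positivity
  rw [div_mul_eq_mul_div, le_div_iff₀ hnpos]
  calc B * n ≤ _ := hfin
    _ = _ := by ring

end Pool.Agent.H891R2.RL.RG4
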