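import Pool.Agent.H891R2.RL.RA
import Pool.Agent.H891R2.RL.RD3
import Pool.Agent.H891R2.RL.RD5
import Pool.Agent.H891R2.RL.RD6
import Pool.Agent.H891R2.RL.RF
import Pool.Agent.H891R2.RL.RG1
import Pool.Agent.H891R2.RL.RG2
import Pool.Agent.H891R2.RL.RG4
import Pool.Agent.H891R2.RL.RB
import Pool.Agent.H891R2.RL.RC
import Pool.Agent.H891R2.RL.RE
import Pool.Agent.H891R2.RL.RG3

set_option autoImplicit false

namespace Pool.Agent.H891R2.RL

open Finset

variable {V E D : Type}

theorem y_ne {L : LOG V E} (hC : L.Compressed) (A : Disc L D) (d : D) : A.y d ≠ A.y (A.ρ d) := by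
  have h := A.ends d
  obtain ⟨_, h2, h3⟩ := hC (A.e d)
  by_cases hf : A.fwd d = true
  · rw [if_pos hf] at h
    rw [h.1, h.2]
    split_ifs
    · exact h2
    · exact h3
  · rw [if_neg hf] at h
    rw [h.1, h.2]
    split_ifs
    · exact h2.symm
    · exact h3.symm

theorem rho_ne {L : LOG V E} (hC : L.Compressed) (A : Disc L D) (d : D) : A.ρ d ≠ d := by
  intro h
  apply y_ne hC A d
  rw [h]

theorem don_of_short [DecidableEq V] [DecidableEq E] (L : LOG V E) (hC : L.Compressed) 
    (hS : L.Sparse 7) (A : Disc L D) (d : D) (hd : A.Short (A.π d)) : ∃ S, A.Don d S := by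
  obtain ⟨S, h1, h2, h3, h4, h5, h6, h7⟩ := RC.short_rare L hC hS A (A.π d) hd
  rw [A.π_e d] at h2 h5 h6 h7
  refine ⟨S, h1, h2, ?_, ?_⟩
  · have : A.far (A.π d) = A.pole d := by
      unfold Disc.far Disc.pole
      rw [A.π_side d, A.π_e d]
      by_cases hs : A.side d <;> simp [hs]
    rw [← this]
    exact h7
  · have h := A.π_nbr d
    by_cases hf : A.fwd d = true
    · rw [if_pos hf] at h ⊢
      rw [h]
      exact ⟨h3, h5⟩
    · rw [if_neg hf] at h ⊢
      rw [h]
      exact ⟨h4, h6⟩

theorem don_rev [DecidableEq V] {L : LOG V E} (A : Disc L D) (d : D) (S : Finset E)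
    (h : A.Don d S) : A.rev.Don d S := RD3.don_rev A d S h

/-- the local sparsity test -/
theorem sparse_DR [DecidableEq V] (L : LOG V E) (hC : L.Compressed) (hS : L.Sparse 7) : DR L.rel := by
  classical
  intro S hR
  have hfin := S.finD
  obtain ⟨A, hA⟩ := RA.disc_of_reduced L hC S hR
  have he := RB.euler_bound S
  have hq : (fun x y : S.D => y = S.opp (S.nxt.symm x)) = (fun x y : S.D => y = A.ρ x) := by
    funext x y
    rw [hA x]
  rw [hq] at he
  have key : 4 * Nat.card (Quot fun x y : S.D => y = A.ρ x) ≤ Nat.card S.D := by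
    apply RF.discharge A.ρ A.π (fun x => A.Short x)
    intro d
    have hrare := fun (B : Disc L S.D) (p : S.D) (hp : B.Short p) => RC.short_rare L hC hS B p hp
    refine RE.orbit_bound A.ρ A.fwd (fun x => A.Short (A.π x)) (rho_ne hC A) ?_ ?_ ?_ ?_ ?_ d
    · intro x hx hf
      obtain ⟨T, hT⟩ := don_of_short L hC hS A x hx
      obtain ⟨_, _, h3, h4⟩ := RD2.don_next L hC hS A x T hf hT
      refine ⟨fun h => ?_, fun h => ?_⟩
      · obtain ⟨T', hT'⟩ := don_of_short L hC hS A _ h
        exact h3 T' hT'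
      · obtain ⟨T', hT'⟩ := don_of_short L hC hS A _ h
        exact h4 T' hT'
    · intro x hx hf
      obtain ⟨T, hT⟩ := don_of_short L hC hS A x hx
      obtain ⟨_, _, h3, h4⟩ := RD2.don_next L hC hS A.rev x T (by simp [Disc.rev, hf]) (don_rev A x T hT)
      refine ⟨fun h => ?_, fun h => ?_⟩
      · obtain ⟨T', hT'⟩ := don_of_short L hC hS A _ h
        exact h3 T' (don_rev A _ T' hT')
      · obtain ⟨T', hT'⟩ := don_of_short L hC hS A _ h
        exact h4 T' (don_rev A _ T' hT')
    · intro x hx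
      obtain ⟨T, hT⟩ := don_of_short L hC hS A x hx
      have h := RD3.don_short L hC hS hrare A x T hT
      unfold Disc.Short at h
      push Not at h
      exact h
    · intro x hx
      obtain ⟨T, hT⟩ := don_of_short L hC hS A x hx
      by_cases hf : A.fwd x = true
      · exact RD3.don_four L hC hS A x T hf hT
      · have h := RD3.don_four L hC hS A.rev x T (by simp [Disc.rev, hf]) (don_rev A x T hT)
        intro h4
        apply h
        change A.ρ.symm (A.ρ.symm (A.ρ.symm (A.ρ.symm x))) = x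
        conv_lhs => rw [← h4]
        simp
    · intro x hx hf h5
      obtain ⟨T, hT⟩ := don_of_short L hC hS A x hx
      refine ⟨fun h => ?_, fun h => ?_⟩
      · obtain ⟨T', hT'⟩ := don_of_short L hC hS A _ h.2
        exact RD5.don_five1 L hC hS A x T hf hT h5 T' h.1 hT'
      · obtain ⟨T', hT'⟩ := don_of_short L hC hS A _ h.2
        exact RD6.don_five2 (fun L hS S S' h h' x hx hx' => RD1.rare_eq L hS S S' h h' x hx hx')
          (fun L hC hS A d S hf hd => RD2.don_next L hC hS A d S hf hd) L hC hS A x T hf hT h5 T' h.1 hT'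
  omega

end Pool.Agent.H891R2.RL
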