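import Pool.Agent.H891R2.RL.Fin

set_option autoImplicit false

namespace Pool.Agent.H891R2.RL

open Finset

/-- the number of labellings which are not sparse -/
theorem bad_count {E : Type} [Fintype E] [DecidableEq E] {n : ℕ} (hn : 1 ≤ n) (ini ter : E → Fin n)
    (hE : Fintype.card E + 1 = n) (Δ : ℕ) (hΔ1 : 1 ≤ Δ) (hne : ∀ e, ini e ≠ ter e)
    (hΔ : ∀ v, (univ.filter (fun e => ini e = v ∨ ter e = v)).card ≤ Δ)
    (hleaf : ∀ S : Finset E, S.Nonempty → ∃ e ∈ S, (∀ e' ∈ S, e' ≠ e → ini e ≠ ini e' ∧ ini e ≠ ter e') ∨ 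
      (∀ e' ∈ S, e' ≠ e → ter e ≠ ini e' ∧ ter e ≠ ter e')) : 
    (({lab : E → Fin n | ¬ (⟨ini, ter, lab⟩ : LOG (Fin n) E).Sparse 7}.ncard : ℕ) : ℝ) * n ≤ 
      ∑ k ∈ Finset.Icc (1:ℕ) 7, (2 * k : ℝ) ^ k * (n : ℝ) ^ (n - 1) * (2 * k * Δ) ^ (k - 1) := by
  classical
  set F : Finset E → Finset (E → Fin n) := fun S => univ.filter (fun lab : E → Fin n => 
      ((⟨ini, ter, lab⟩ : LOG (Fin n) E).letters S).card < 2 * S.card) with hF
  set J : Finset (Finset E) := (Finset.Icc (1:ℕ) 7).biUnion (fun k => powersetCard k univ) with hJ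
  have hsub : {lab : E → Fin n | ¬ (⟨ini, ter, lab⟩ : LOG (Fin n) E).Sparse 7} ⊆ 
      ((J.biUnion F : Finset (E → Fin n)) : Set (E → Fin n)) := by
    intro lab hlab
    simp only [Set.mem_setOf_eq, LOG.Sparse, not_forall, not_le] at hlab
    obtain ⟨S, hS7, hS⟩ := hlab
    rw [Finset.mem_coe, Finset.mem_biUnion]
    refine ⟨S, ?_, ?_⟩
    · rw [hJ, Finset.mem_biUnion]
      refine ⟨S.card, ?_, ?_⟩
      · rw [Finset.mem_Icc]
        refine ⟨?_, hS7⟩
        by_contra h0
        have : S.card = 0 := by omega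
        rw [this] at hS
        omega
      · rw [Finset.mem_powersetCard]
        exact ⟨Finset.subset_univ _, rfl⟩
    · rw [hF]
      simp only [Finset.mem_filter, Finset.mem_univ, true_and]
      exact hS
  have h1 : ({lab : E → Fin n | ¬ (⟨ini, ter, lab⟩ : LOG (Fin n) E).Sparse 7}.ncard) ≤ 
      ∑ S ∈ J, (F S).card := by
    refine (Set.ncard_le_ncard hsub (Finset.finite_toSet _)).trans ?_
    rw [Set.ncard_coe_finset]
    exact Finset.card_biUnion_le
  have h2 : (∑ S ∈ J, (F S).card : ℕ) = ∑ k ∈ Finset.Icc (1:ℕ) 7, ∑ S ∈ powersetCard k (univ : Finset E), (F S).card := by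
    rw [hJ, Finset.sum_biUnion]
    intro a _ b _ hab
    rw [Function.onFun, Finset.disjoint_left]
    intro S hS hS'
    rw [Finset.mem_powersetCard] at hS hS'
    exact hab (hS.2.symm.trans hS'.2)
  have h3 : ∀ k ∈ Finset.Icc (1:ℕ) 7, (∑ S ∈ powersetCard k (univ : Finset E), ((F S).card : ℝ)) * n ≤ 
      (2 * k : ℝ) ^ k * (n : ℝ) ^ (n - 1) * (2 * k * Δ) ^ (k - 1) := by
    intro k hk
    rw [Finset.mem_Icc] at hk
    rw [Finset.sum_mul]
    have h4 : ∀ S ∈ powersetCard k (univ : Finset E), ((F S).card : ℝ) * n ≤ 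
        (2 * k : ℝ) ^ k * (n : ℝ) ^ (n - 1) * 
        ((n : ℝ) ^ k / (n : ℝ) ^ (S.biUnion (fun e => ({ini e, ter e} : Finset (Fin n)))).card) := by
      intro S hS
      rw [Finset.mem_powersetCard] at hS
      have hS0 : S.Nonempty := by
        rw [← Finset.card_pos]
        omega
      have h5 := RG3.label_count hn ini ter S hS0
      have h6 : Fintype.card E = n - 1 := by omega
      rw [hS.2, h6] at h5
      convert h5 using 4
      simp only [hF]
      rw [hS.2]
    refine (Finset.sum_le_sum h4).trans ?_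
    rw [← Finset.mul_sum]
    refine mul_le_mul_of_nonneg_left ?_ (by positivity)
    exact RG2.weight_bound ini ter hne n Δ (by omega) hn hΔ1 hΔ hleaf k hk.1
  calc _ ≤ ((∑ S ∈ J, (F S).card : ℕ) : ℝ) * n := by
        refine mul_le_mul_of_nonneg_right ?_ (by positivity)
        exact_mod_cast h1
    _ = ∑ k ∈ Finset.Icc (1:ℕ) 7, (∑ S ∈ powersetCard k (univ : Finset E), ((F S).card : ℝ)) * n := by
        rw [h2]
        push_cast
        rw [Finset.sum_mul]
    _ ≤ _ := Finset.sum_le_sum h3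

/-- most labellings of a tree give diagrammatically reducible presentations -/
theorem random_DR (n Δ : ℕ) (hn : 3 ≤ n) (T : SimpleGraph (Fin n)) (hT : T.IsTree)
    (hΔ : ∀ v, (T.neighborSet v).ncard ≤ Δ) (ini ter : T.edgeSet → Fin n)
    (he : ∀ e, s(ini e, ter e) = e.1) :
    ({lab : T.edgeSet → Fin n | (⟨ini, ter, lab⟩ : LOG (Fin n) T.edgeSet).Compressed ∧ 
      ¬ DR (⟨ini, ter, lab⟩ : LOG (Fin n) T.edgeSet).rel}.ncard : ℝ) ≤ 
    10 ^ 18 * (Δ : ℝ) ^ 6 / n * 
      ({lab : T.edgeSet → Fin n | (⟨ini, ter, lab⟩ : LOG (Fin n) T.edgeSet).Compressed}.ncard : ℝ) := by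
  classical
  have hne : ∀ e, ini e ≠ ter e := by
    intro e h
    have h1 := e.2
    rw [← he e, h] at h1
    exact T.loopless.irrefl _ ((SimpleGraph.mem_edgeSet T).1 h1)
  have hcard : Fintype.card T.edgeSet + 1 = n := by
    have := hT.card_edgeFinset
    rw [Fintype.card_fin, ← SimpleGraph.edgeFinset_card] at *
    convert this using 2
    
  have hdeg : ∀ v, (univ.filter (fun e : T.edgeSet => ini e = v ∨ ter e = v)).card ≤ Δ := by
    intro v
    refine le_trans ?_ (hΔ v)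
    rw [Set.ncard_eq_toFinset_card']
    refine Finset.card_le_card_of_injOn (fun e => if ini e = v then ter e else ini e) ?_ ?_
    · intro e hev
      simp only [Finset.coe_filter, Finset.mem_univ, true_and, Set.mem_setOf_eq] at hev
      rw [Finset.mem_coe, Set.mem_toFinset, SimpleGraph.mem_neighborSet]
      have h1 := e.2
      rw [← he e, SimpleGraph.mem_edgeSet] at h1
      by_cases h2 : ini e = v
      · simp only [h2, if_true]
        rw [h2] at h1
        exact h1
      · simp only [h2, if_false]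
        have h3 := hev.resolve_left h2
        rw [h3] at h1
        exact h1.symm
    · intro e hev e' hev' hee
      simp only [Finset.coe_filter, Finset.mem_univ, true_and, Set.mem_setOf_eq] at hev hev'
      apply Subtype.ext
      rw [← he e, ← he e']
      simp only at hee
      by_cases h2 : ini e = v <;> by_cases h2' : ini e' = v
      · rw [if_pos h2, if_pos h2'] at hee
        rw [h2, h2', hee]
      · rw [if_pos h2, if_neg h2'] at hee
        rw [h2, hee, hev'.resolve_left h2']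
        exact Sym2.eq_swap
      · rw [if_neg h2, if_pos h2'] at hee
        rw [h2', ← hee, hev.resolve_left h2]
        exact Sym2.eq_swap
      · rw [if_neg h2, if_neg h2'] at hee
        rw [hee, hev.resolve_left h2, hev'.resolve_left h2']
  have hΔ1 : 1 ≤ Δ := by
    have h1 : 0 < Fintype.card T.edgeSet := by omega
    obtain ⟨e⟩ := Fintype.card_pos_iff.1 h1
    refine le_trans ?_ (hdeg (ini e))
    rw [Nat.one_le_iff_ne_zero, ← Nat.pos_iff_ne_zero, Finset.card_pos]
    exact ⟨e, by simp⟩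
  have hleaf := RG1.leaf T hT ini ter he
  have hbad := bad_count (by omega) ini ter hcard Δ hΔ1 hne hdeg hleaf
  have hnum := RG4.numerics n Δ hn hΔ1 _ hbad
  -- the number of compressed labellings
  have hcomp : {lab : T.edgeSet → Fin n | (⟨ini, ter, lab⟩ : LOG (Fin n) T.edgeSet).Compressed}.ncard = 
      (n - 2) ^ (n - 1) := by
    have h1 : {lab : T.edgeSet → Fin n | (⟨ini, ter, lab⟩ : LOG (Fin n) T.edgeSet).Compressed} = 
        ((Fintype.piFinset (fun e => (univ \ {ini e, ter e} : Finset (Fin n))) : 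
          Finset (T.edgeSet → Fin n)) : Set (T.edgeSet → Fin n)) := by
      ext lab
      simp only [Set.mem_setOf_eq, LOG.Compressed, Finset.mem_coe, Fintype.mem_piFinset, 
        Finset.mem_sdiff, Finset.mem_univ, true_and, Finset.mem_insert, Finset.mem_singleton, not_or]
      exact ⟨fun h e => (h e).2, fun h e => ⟨hne e, h e⟩⟩
    rw [h1, Set.ncard_coe_finset, Fintype.card_piFinset]
    have h2 : ∀ e : T.edgeSet, (univ \ {ini e, ter e} : Finset (Fin n)).card = n - 2 := by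
      intro e
      rw [Finset.card_sdiff_of_subset (Finset.subset_univ _), Finset.card_univ, Fintype.card_fin, 
        Finset.card_pair (hne e)]
    rw [Finset.prod_congr rfl (fun e _ => h2 e), Finset.prod_const, Finset.card_univ]
    congr 1
    omega
  have hsub : ({lab : T.edgeSet → Fin n | (⟨ini, ter, lab⟩ : LOG (Fin n) T.edgeSet).Compressed ∧ 
      ¬ DR (⟨ini, ter, lab⟩ : LOG (Fin n) T.edgeSet).rel}.ncard : ℝ) ≤ 
      ({lab : T.edgeSet → Fin n | ¬ (⟨ini, ter, lab⟩ : LOG (Fin n) T.edgeSet).Sparse 7}.ncard : ℝ) := by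
    have : {lab : T.edgeSet → Fin n | (⟨ini, ter, lab⟩ : LOG (Fin n) T.edgeSet).Compressed ∧ 
      ¬ DR (⟨ini, ter, lab⟩ : LOG (Fin n) T.edgeSet).rel} ⊆ 
      {lab : T.edgeSet → Fin n | ¬ (⟨ini, ter, lab⟩ : LOG (Fin n) T.edgeSet).Sparse 7} := by
      rintro lab ⟨h1, h2⟩ h3
      exact h2 (sparse_DR _ h1 h3)
    exact_mod_cast Set.ncard_le_ncard this (Set.toFinite _)
  refine hsub.trans (hnum.trans ?_)
  rw [hcomp]
  have hn2 : (((n - 2) ^ (n - 1) : ℕ) : ℝ) = ((n : ℝ) - 2) ^ (n - 1) := by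
    rw [Nat.cast_pow, Nat.cast_sub (by omega)]
    norm_num
  rw [hn2]
  have hexp : (7 : ℝ) * 14 ^ 13 * Real.exp 4 ≤ 10 ^ 18 := by
    have h1 : Real.exp 4 = Real.exp 1 ^ 4 := by
      rw [← Real.exp_nat_mul]
      norm_num
    have h2 := Real.exp_one_lt_d9
    have h3 : Real.exp 1 ^ 4 ≤ 2.7182818286 ^ 4 := 
      pow_le_pow_left₀ (Real.exp_pos 1).le h2.le 4
    rw [h1]
    refine (mul_le_mul_of_nonneg_left h3 (by norm_num)).trans ?_
    norm_num
  have hn' : (3 : ℝ) ≤ n := by exact_mod_cast hn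
  have hpos : (0 : ℝ) ≤ (Δ : ℝ) ^ 6 / n * ((n : ℝ) - 2) ^ (n - 1) := by
    have : (0 : ℝ) ≤ (n : ℝ) - 2 := by linarith
    positivity
  calc 7 * 14 ^ 13 * Real.exp 4 * (Δ : ℝ) ^ 6 / n * ((n : ℝ) - 2) ^ (n - 1) = 
      (7 * 14 ^ 13 * Real.exp 4) * ((Δ : ℝ) ^ 6 / n * ((n : ℝ) - 2) ^ (n - 1)) := by ring
    _ ≤ 10 ^ 18 * ((Δ : ℝ) ^ 6 / n * ((n : ℝ) - 2) ^ (n - 1)) := 
        mul_le_mul_of_nonneg_right hexp hpos
    _ = _ := by ring

end Pool.Agent.H891R2.RL
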