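import Pool.Agent.H891R2.RL.Defs

set_option autoImplicit false

/-! # RA: from reduced diagrams to `Disc` -/

namespace Pool.Agent.H891R2.RL.RA

variable {V E : Type}

/-- odd positions -/
def od (p : Fin 4) : Bool := decide (p = 1 ∨ p = 3)

/-- the corner -/
def kap (p : Fin 4) (s : Bool) : Fin 4 := if s then p else p + 1

/-- the side of the corner -/
def sd (p : Fin 4) (s : Bool) : Bool := decide (kap p s = 0 ∨ kap p s = 1)

theorem rel0 (L : LOG V E) (e : E) : L.rel e 0 = (L.ini e, true) := rfl
theorem rel1 (L : LOG V E) (e : E) : L.rel e 1 = (L.lab e, true) := rfl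
theorem rel2 (L : LOG V E) (e : E) : L.rel e 2 = (L.ter e, false) := rfl
theorem rel3 (L : LOG V E) (e : E) : L.rel e 3 = (L.lab e, false) := rfl

section

variable {L : LOG V E} (S : SphericalDiagram L.rel)

theorem cell_symm (d : S.D) : S.cell (S.nxt.symm d) = S.cell d := by
  have := S.cell_nxt (S.nxt.symm d)
  rwa [Equiv.apply_symm_apply, eq_comm] at this

theorem sgn_symm (d : S.D) : S.sgn (S.nxt.symm d) = S.sgn d := by
  have := S.sgn_nxt (S.nxt.symm d)
  rwa [Equiv.apply_symm_apply, eq_comm] at this

theorem pos_symm (d : S.D) :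
    S.pos (S.nxt.symm d) = if S.sgn d then S.pos d - 1 else S.pos d + 1 := by
  have := S.pos_nxt (S.nxt.symm d)
  rw [Equiv.apply_symm_apply, sgn_symm] at this
  cases h : S.sgn d
  · rw [h] at this
    simp only [Bool.false_eq_true, if_false] at this ⊢
    rw [this]; simp
  · rw [h] at this
    simp only [if_true] at this ⊢
    rw [this]; simp

/-- the letter -/
def ylet (d : S.D) : V := (L.rel (S.cell d) (S.pos d)).1

/-- letter of the next edge around the vertex -/
theorem ylet_rho (d : S.D) : ylet S (S.opp (S.nxt.symm d)) =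
    (L.rel (S.cell d) (if S.sgn d then S.pos d - 1 else S.pos d + 1)).1 := by
  have h := congrArg Prod.fst (S.letter_opp (S.nxt.symm d))
  simp only [signedLetter] at h
  unfold ylet
  rw [h, cell_symm, pos_symm]

theorem sign_rho (d : S.D) :
    ((L.rel (S.cell (S.opp (S.nxt.symm d))) (S.pos (S.opp (S.nxt.symm d)))).2 ==
      S.sgn (S.opp (S.nxt.symm d))) =
    !((L.rel (S.cell d) (if S.sgn d then S.pos d - 1 else S.pos d + 1)).2 == S.sgn d) := by
  have h := congrArg Prod.snd (S.letter_opp (S.nxt.symm d))
  simp only [signedLetter] at h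
  rw [h, cell_symm, pos_symm, sgn_symm]

theorem ends (d : S.D) : if od (S.pos d) then ylet S d = L.lab (S.cell d) ∧
      ylet S (S.opp (S.nxt.symm d)) = (if sd (S.pos d) (S.sgn d) then L.ini (S.cell d)
        else L.ter (S.cell d))
    else ylet S (S.opp (S.nxt.symm d)) = L.lab (S.cell d) ∧
      ylet S d = (if sd (S.pos d) (S.sgn d) then L.ini (S.cell d) else L.ter (S.cell d)) := by
  rw [ylet_rho]
  unfold ylet
  generalize S.pos d = p
  generalize S.sgn d = s
  generalize S.cell d = e
  cases s <;> fin_cases p <;> simp [od, sd, kap, LOG.rel]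

/-- combinatorics of the positions -/
theorem same_aux (e : E) (h1 : L.ini e ≠ L.ter e) (h2 : L.lab e ≠ L.ini e)
    (h3 : L.lab e ≠ L.ter e) (x p' : Fin 4) (s s' : Bool)
    (hy : (L.rel e p').1 = (L.rel e x).1)
    (hs : ((L.rel e p').2 == s') = !((L.rel e x).2 == s)) (hr : ¬ (p' = x ∧ s' ≠ s)) :
    (L.rel e x).1 = L.lab e ∧ s' = s ∧ p' = x + 2 := by
  fin_cases x <;> fin_cases p' <;> cases s <;> cases s' <;>
    simp_all [LOG.rel, eq_comm]

theorem same (hC : L.Compressed) (hS : S.Reduced) (d : S.D)
    (h : S.cell (S.opp (S.nxt.symm d)) = S.cell d) :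
    ylet S (S.opp (S.nxt.symm d)) = L.lab (S.cell d) ∧
      ylet S (S.opp (S.nxt.symm (S.opp (S.nxt.symm d)))) = ylet S d ∧
      S.opp (S.nxt.symm (S.opp (S.nxt.symm d))) ≠ d := by
  obtain ⟨c1, c2, c3⟩ := hC (S.cell d)
  have hy := ylet_rho S d
  have hs := sign_rho S d
  have hr := hS (S.nxt.symm d)
  rw [cell_symm, pos_symm, sgn_symm] at hr
  unfold ylet at hy
  rw [h] at hy hs
  set x : Fin 4 := if S.sgn d then S.pos d - 1 else S.pos d + 1 with hx
  obtain ⟨k1, k2, k3⟩ := same_aux (S.cell d) c1 c2 c3 x _ _ _ hy hs (fun h' => hr ⟨h, h'⟩)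
  have hpos : (if S.sgn (S.opp (S.nxt.symm d)) then S.pos (S.opp (S.nxt.symm d)) - 1
      else S.pos (S.opp (S.nxt.symm d)) + 1) = S.pos d := by
    rw [k2, k3, hx]
    cases S.sgn d
    · simp only [Bool.false_eq_true, if_false]
      generalize S.pos d = p
      fin_cases p <;> rfl
    · simp only [if_true]
      generalize S.pos d = p
      fin_cases p <;> rfl
  refine ⟨?_, ?_, ?_⟩
  · rw [ylet_rho, ← hx]; exact k1
  · rw [ylet_rho, hpos, h]; rfl
  · intro hd
    have h5 := sign_rho S (S.opp (S.nxt.symm d))
    rw [hpos, hd, h, k2] at h5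
    cases hb : ((L.rel (S.cell d) (S.pos d)).2 == S.sgn d) <;> rw [hb] at h5 <;>
      exact absurd h5 (by decide)

theorem od_nxt (d : S.D) : od (S.pos (S.nxt d)) = !od (S.pos d) := by
  rw [S.pos_nxt]
  generalize S.pos d = p
  cases S.sgn d <;> fin_cases p <;> decide

theorem od_symm (d : S.D) : od (S.pos (S.nxt.symm d)) = !od (S.pos d) := by
  rw [pos_symm]
  generalize S.pos d = p
  cases S.sgn d <;> fin_cases p <;> decide

/-- the other end of the side with the label -/
def pif (d : S.D) : S.D := if od (S.pos d) then S.nxt d else S.nxt.symm d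

theorem pif_invol : Function.Involutive (pif S) := by
  intro d
  cases h : od (S.pos d)
  · have h1 : pif S d = S.nxt.symm d := by unfold pif; rw [h]; rfl
    have h2 : od (S.pos (S.nxt.symm d)) = true := by rw [od_symm, h]; rfl
    rw [h1]; unfold pif; rw [h2, if_pos rfl, Equiv.apply_symm_apply]
  · have h1 : pif S d = S.nxt d := by unfold pif; rw [h]; rfl
    have h2 : od (S.pos (S.nxt d)) = false := by rw [od_nxt, h]; rfl
    rw [h1]; unfold pif; rw [h2]; simp

theorem opp_symm (d : S.D) : S.opp.symm d = S.opp d := by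
  rw [Equiv.symm_apply_eq, S.opp_opp]

end

theorem disc_of_reduced (L : LOG V E) (hC : L.Compressed) (S : SphericalDiagram L.rel)
    (hS : S.Reduced) : ∃ A : Disc L S.D, ∀ d, A.ρ d = S.opp (S.nxt.symm d) := by
  refine ⟨
    { ρ := S.nxt.symm.trans S.opp
      π := (pif_invol S).toPerm
      e := S.cell
      y := ylet S
      fwd := fun d => od (S.pos d)
      side := fun d => sd (S.pos d) (S.sgn d)
      ends := fun d => ends S d
      same := fun d h => same S hC hS d h
      π_e := ?_
      π_side := ?_
      π_fwd := ?_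
      π_nbr := ?_ }, fun d => rfl⟩
  · intro d
    change S.cell (pif S d) = S.cell d
    unfold pif
    cases od (S.pos d)
    · exact cell_symm S d
    · exact S.cell_nxt d
  · intro d
    change sd (S.pos (pif S d)) (S.sgn (pif S d)) = !sd (S.pos d) (S.sgn d)
    unfold pif
    cases h : od (S.pos d)
    · simp only [Bool.false_eq_true, if_false]
      rw [pos_symm, sgn_symm]
      revert h
      generalize S.pos d = p
      generalize S.sgn d = s
      revert p s
      decide
    · simp only [if_true]
      rw [S.pos_nxt, S.sgn_nxt]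
      revert h
      generalize S.pos d = p
      generalize S.sgn d = s
      revert p s
      decide
  · intro d
    change od (S.pos (pif S d)) = !od (S.pos d)
    unfold pif
    cases h : od (S.pos d)
    · simp only [Bool.false_eq_true, if_false]
      rw [od_symm, h]
    · simp only [if_true]
      rw [od_nxt, h]
  · intro d
    change if od (S.pos d) = true then
        S.cell ((S.nxt.symm.trans S.opp).symm d) = S.cell (S.opp (S.nxt.symm (pif S d)))
      else S.cell (S.opp (S.nxt.symm d)) = S.cell ((S.nxt.symm.trans S.opp).symm (pif S d))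
    have hsymm : ∀ x, (S.nxt.symm.trans S.opp).symm x = S.nxt (S.opp x) := by
      intro x
      rw [Equiv.symm_trans_apply, Equiv.symm_symm, opp_symm]
    rw [hsymm, hsymm]
    unfold pif
    cases h : od (S.pos d)
    · simp only [Bool.false_eq_true, if_false]
      rw [S.cell_nxt]
    · simp only [if_true]
      rw [Equiv.symm_apply_apply, S.cell_nxt]

end Pool.Agent.H891R2.RL.RA
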