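import Pool.Agent.H891R2.RL.Defs

set_option autoImplicit false

/-! RD1: two rare sets are equal or have disjoint letters (helper99) -/

namespace Pool.Agent.H891R2.RL.RD1

open Finset

variable {V E D : Type}

theorem lt_sub_letters [DecidableEq V] (L : LOG V E) {S : Finset E} {g : E} (hg : g ∈ S)
    {x : V} (hx : x ∈ L.lt g) : x ∈ L.letters S := by
  unfold LOG.letters
  rw [mem_biUnion]
  exact ⟨g, hg, hx⟩

/-- D1 -/
theorem rare_eq [DecidableEq V] [DecidableEq E] (L : LOG V E) (hS : L.Sparse 7) (S S' : Finset E) 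
    (h : L.Rare S) (h' : L.Rare S') (x : V) (hx : x ∈ L.letters S) (hx' : x ∈ L.letters S') : 
    S = S' := by
  obtain ⟨h1, h2, h3⟩ := h
  obtain ⟨h1', h2', h3'⟩ := h'
  have hun : L.letters (S ∪ S') = L.letters S ∪ L.letters S' := by
    unfold LOG.letters
    rw [union_biUnion]
  have hcu : (S ∪ S').card ≤ 7 := (card_union_le S S').trans (by omega)
  have hsp := hS _ hcu
  rw [hun] at hsp
  have hc1 := card_union_add_card_inter (L.letters S) (L.letters S')
  have hc2 := card_union_add_card_inter S S'
  have hle : (L.letters S ∩ L.letters S').card ≤ 2 * (S ∩ S').card := by omega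
  have hpos : 0 < (L.letters S ∩ L.letters S').card :=
    card_pos.2 ⟨x, mem_inter.2 ⟨hx, hx'⟩⟩
  have hne : (S ∩ S').Nonempty := by
    rw [← card_pos]
    omega
  have hsub : (L.letters (S ∩ S')).card ≤ (L.letters S ∩ L.letters S').card := by
    apply card_le_card
    intro z hz
    unfold LOG.letters at hz
    rw [mem_biUnion] at hz
    obtain ⟨g, hg, hz⟩ := hz
    rw [mem_inter] at hg
    exact mem_inter.2 ⟨lt_sub_letters L hg.1 hz, lt_sub_letters L hg.2 hz⟩
  have e1 : S ∩ S' = S := by
    by_contra hcon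
    have := h3 (S ∩ S') (inter_subset_left.ssubset_of_ne hcon) hne
    omega
  have e2 : S ∩ S' = S' := by
    by_contra hcon
    have := h3' (S ∩ S') (inter_subset_right.ssubset_of_ne hcon) hne
    omega
  rw [← e1, e2]

end Pool.Agent.H891R2.RL.RD1
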