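import Pool.Agent.H891R2.RL.RD1

set_option autoImplicit false

/-! RD2: the two corners on the pole side of a donor (helper99) -/

namespace Pool.Agent.H891R2.RL.RD2

open Finset RD1

variable {V E D : Type}

theorem card_lt [DecidableEq V] (L : LOG V E) (g : E) : (L.lt g).card ≤ 3 := by
  unfold LOG.lt
  exact card_le_three

theorem add1 [DecidableEq V] (L : LOG V E) (g : E) (X : Finset V) {a : V} (ha : a ∈ L.lt g)
    (ha' : a ∈ X) : (L.lt g ∪ X).card ≤ X.card + 2 := by
  have h1 := card_union_add_card_inter (L.lt g) X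
  have h2 : 0 < (L.lt g ∩ X).card := card_pos.2 ⟨a, mem_inter.2 ⟨ha, ha'⟩⟩
  have h3 := card_lt L g
  omega

theorem add2 [DecidableEq V] (L : LOG V E) (g : E) (X : Finset V) {a b : V} (hab : a ≠ b)
    (ha : a ∈ L.lt g) (ha' : a ∈ X) (hb : b ∈ L.lt g) (hb' : b ∈ X) :
    (L.lt g ∪ X).card ≤ X.card + 1 := by
  have h1 := card_union_add_card_inter (L.lt g) X
  have h2 : ({a, b} : Finset V).card ≤ (L.lt g ∩ X).card := by
    apply card_le_card
    intro z hz
    rw [mem_insert, mem_singleton] at hz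
    rcases hz with rfl | rfl
    · exact mem_inter.2 ⟨ha, ha'⟩
    · exact mem_inter.2 ⟨hb, hb'⟩
  rw [card_pair hab] at h2
  have h3 := card_lt L g
  omega

theorem letters_insert [DecidableEq V] [DecidableEq E] (L : LOG V E) (g : E) (S : Finset E) :
    L.letters (insert g S) = L.lt g ∪ L.letters S := by
  unfold LOG.letters
  rw [biUnion_insert]

/-- a square with two letters in `T` -/
theorem ins [DecidableEq V] [DecidableEq E] (L : LOG V E) (hS : L.Sparse 7) (T : Finset E)
    (g : E) (hg : g ∉ T) (hT : T.card ≤ 6) {a b : V} (hab : a ≠ b) (ha : a ∈ L.lt g)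
    (ha' : a ∈ L.letters T) (hb : b ∈ L.lt g) (hb' : b ∈ L.letters T) :
    2 * T.card + 1 ≤ (L.letters T).card := by
  have h1 := hS (insert g T) (by rw [card_insert_of_notMem hg]; omega)
  rw [card_insert_of_notMem hg, letters_insert] at h1
  have h2 := add2 L g (L.letters T) hab ha ha' hb hb'
  omega

theorem pole_mem [DecidableEq V] {L : LOG V E} (A : Disc L D) (d : D) :
    A.pole d ∈ L.lt (A.e d) := by
  unfold Disc.pole LOG.lt
  split_ifs <;> simp

theorem lab_mem [DecidableEq V] (L : LOG V E) (g : E) : L.lab g ∈ L.lt g := by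
  unfold LOG.lt
  simp

theorem pole_ne (L : LOG V E) (hC : L.Compressed) (A : Disc L D) (d : D) :
    A.pole d ≠ L.lab (A.e d) := by
  unfold Disc.pole
  split_ifs
  · exact (hC _).2.1.symm
  · exact (hC _).2.2.symm

theorem ends_fwd {L : LOG V E} (A : Disc L D) (d : D) (h : A.fwd d = true) :
    A.y d = L.lab (A.e d) ∧ A.y (A.ρ d) = A.pole d := by
  have := A.ends d
  rw [if_pos h] at this
  exact this

theorem ends_bwd {L : LOG V E} (A : Disc L D) (d : D) (h : ¬ A.fwd d = true) :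
    A.y (A.ρ d) = L.lab (A.e d) ∧ A.y d = A.pole d := by
  have := A.ends d
  rw [if_neg h] at this
  exact this

/-- the letters at a corner -/
theorem ys [DecidableEq V] (L : LOG V E) (hC : L.Compressed) (A : Disc L D) (d : D) :
    A.y d ∈ L.lt (A.e d) ∧ A.y (A.ρ d) ∈ L.lt (A.e d) ∧ A.y d ≠ A.y (A.ρ d) := by
  by_cases h : A.fwd d = true
  · obtain ⟨h1, h2⟩ := ends_fwd A d h
    rw [h1, h2]
    exact ⟨lab_mem L _, pole_mem A d, (pole_ne L hC A d).symm⟩
  · obtain ⟨h1, h2⟩ := ends_bwd A d h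
    rw [h1, h2]
    exact ⟨pole_mem A d, lab_mem L _, pole_ne L hC A d⟩

/-- D2 -/
theorem don_next [DecidableEq V] [DecidableEq E] (L : LOG V E) (hC : L.Compressed) (hS : L.Sparse 7) 
    (A : Disc L D) (d : D) (S : Finset E) (hf : A.fwd d = true) (hd : A.Don d S) : 
    A.e (A.ρ d) ∉ S ∧ A.e (A.ρ (A.ρ d)) ∉ S ∧ (∀ S', ¬ A.Don (A.ρ d) S') ∧ 
      ∀ S', ¬ A.Don (A.ρ (A.ρ d)) S' := by
  obtain ⟨hr, hed, hpole, -⟩ := hd
  obtain ⟨hy1, hy2⟩ := ends_fwd A d hf
  have y1 := ys L hC A (A.ρ d)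
  have y2 := ys L hC A (A.ρ (A.ρ d))
  have hfS : A.y (A.ρ d) ∈ L.letters S := by
    rw [hy2]
    exact lt_sub_letters L hed (pole_mem A d)
  have c1 : A.e (A.ρ d) ∉ S := by
    intro h
    have h1 := hpole _ h (by rw [← hy2]; exact y1.1)
    have h2 := (A.same d h1).1
    rw [hy2] at h2
    exact pole_ne L hC A d h2
  have c2 : A.e (A.ρ (A.ρ d)) ∉ S := by
    intro h
    have h1 := ins L hS S (A.e (A.ρ d)) c1 (by have := hr.1; omega) y1.2.2 y1.1 hfS y1.2.1
      (lt_sub_letters L h y2.1)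
    have h2 := hr.2.1
    omega
  have c3 : ∀ S', L.Rare S' → A.e (A.ρ d) ∉ S' := by
    intro S' hS' h
    have h1 := rare_eq L hS S S' hr hS' _ hfS (lt_sub_letters L h y1.1)
    exact c1 (h1 ▸ h)
  refine ⟨c1, c2, fun S' h => c3 S' h.1 h.2.1, ?_⟩
  intro S' h
  have hr' := h.1
  have he' := h.2.1
  have hdisj : ∀ z, z ∈ L.letters S → z ∉ L.letters S' := by
    intro z hz hz'
    have h1 := rare_eq L hS S S' hr hr' z hz hz'
    exact c2 (h1 ▸ he')
  have hdS : Disjoint S S' := by
    rw [disjoint_left]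
    intro g hg hg'
    exact hdisj _ (lt_sub_letters L hg (lab_mem L g)) (lt_sub_letters L hg' (lab_mem L g))
  have hun : L.letters (S ∪ S') = L.letters S ∪ L.letters S' := by
    unfold LOG.letters
    rw [union_biUnion]
  have hcard : (S ∪ S').card = S.card + S'.card := card_union_of_disjoint hdS
  have hcl : (L.letters (S ∪ S')).card ≤ 2 * S.card + 2 * S'.card := by
    rw [hun]
    refine (card_union_le _ _).trans ?_
    rw [hr.2.1, hr'.2.1]
  have h1 := ins L hS (S ∪ S') (A.e (A.ρ d))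
    (by
      rw [mem_union]
      rintro (h | h)
      · exact c1 h
      · exact c3 S' hr' h)
    (by rw [hcard]; have := hr.1; have := hr'.1; omega) y1.2.2 y1.1
    (by rw [hun]; exact mem_union_left _ hfS) y1.2.1
    (by rw [hun]; exact mem_union_right _ (lt_sub_letters L he' y2.1))
  rw [hcard] at h1
  omega

end Pool.Agent.H891R2.RL.RD2
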