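import Pool.Agent.H891R2.RL.Defs

set_option autoImplicit false

namespace Pool.Agent.H891R2.RL

open Finset

variable {V E D : Type}

/-! ## A: from reduced diagrams to `Disc` -/

theorem disc_of_reduced (L : LOG V E) (hC : L.Compressed) (S : SphericalDiagram L.rel)
    (hS : S.Reduced) : ∃ A : Disc L S.D, ∀ d, A.ρ d = S.opp (S.nxt.symm d) := by
  sorry

/-! ## B: Euler characteristic -/

theorem euler_bound {X R : Type} {r : R → Fin 4 → X × Bool} (S : SphericalDiagram r) :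
    Nat.card S.D < 4 * Nat.card (Quot fun x y : S.D => y = S.opp (S.nxt.symm x)) := by
  sorry

/-! ## C: vertices of degree two and three -/

theorem short_rare [DecidableEq V] [DecidableEq E] (L : LOG V E) (hC : L.Compressed) (hS : L.Sparse 7) 
    (A : Disc L D) (p : D) (hp : A.Short p) : 
    ∃ S : Finset E, L.Rare S ∧ A.e p ∈ S ∧ A.e (A.ρ p) ∈ S ∧ A.e (A.ρ.symm p) ∈ S ∧ 
      A.e (A.ρ p) ≠ A.e p ∧ A.e (A.ρ.symm p) ≠ A.e p ∧ ∀ g ∈ S, A.far p ∈ L.lt g → g = A.e p := by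
  sorry

/-! ## D: the local lemmas -/

/-- D1 -/
theorem rare_eq [DecidableEq V] [DecidableEq E] (L : LOG V E) (hS : L.Sparse 7) (S S' : Finset E) 
    (h : L.Rare S) (h' : L.Rare S') (x : V) (hx : x ∈ L.letters S) (hx' : x ∈ L.letters S') : 
    S = S' := by
  sorry

/-- D2 -/
theorem don_next [DecidableEq V] [DecidableEq E] (L : LOG V E) (hC : L.Compressed) (hS : L.Sparse 7) 
    (A : Disc L D) (d : D) (S : Finset E) (hf : A.fwd d = true) (hd : A.Don d S) : 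
    A.e (A.ρ d) ∉ S ∧ A.e (A.ρ (A.ρ d)) ∉ S ∧ (∀ S', ¬ A.Don (A.ρ d) S') ∧ 
      ∀ S', ¬ A.Don (A.ρ (A.ρ d)) S' := by
  sorry

/-- D3: no donors at vertices of degree two and three -/
theorem don_short [DecidableEq V] [DecidableEq E] (L : LOG V E) (hC : L.Compressed) (hS : L.Sparse 7) 
    (A : Disc L D) (d : D) (S : Finset E) (hd : A.Don d S) : ¬ A.Short d := by
  sorry

/-- D4: no donors at vertices of degree four -/
theorem don_four [DecidableEq V] [DecidableEq E] (L : LOG V E) (hC : L.Compressed) (hS : L.Sparse 7) 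
    (A : Disc L D) (d : D) (S : Finset E) (hf : A.fwd d = true) (hd : A.Don d S) : 
    A.ρ (A.ρ (A.ρ (A.ρ d))) ≠ d := by
  sorry

/-- D5: vertices of degree five, first case -/
theorem don_five1 [DecidableEq V] [DecidableEq E] (L : LOG V E) (hC : L.Compressed) (hS : L.Sparse 7) 
    (A : Disc L D) (d : D) (S : Finset E) (hf : A.fwd d = true) (hd : A.Don d S) 
    (h5 : A.ρ (A.ρ (A.ρ (A.ρ (A.ρ d)))) = d) (S' : Finset E) 
    (hf' : A.fwd (A.ρ (A.ρ (A.ρ d))) = false) : ¬ A.Don (A.ρ (A.ρ (A.ρ d))) S' := by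
  sorry

/-- D6: vertices of degree five, second case -/
theorem don_five2 [DecidableEq V] [DecidableEq E] (L : LOG V E) (hC : L.Compressed) (hS : L.Sparse 7) 
    (A : Disc L D) (d : D) (S : Finset E) (hf : A.fwd d = true) (hd : A.Don d S) 
    (h5 : A.ρ (A.ρ (A.ρ (A.ρ (A.ρ d)))) = d) (S' : Finset E) 
    (hf' : A.fwd (A.ρ (A.ρ (A.ρ (A.ρ d)))) = false) : ¬ A.Don (A.ρ (A.ρ (A.ρ (A.ρ d)))) S' := by
  sorry

/-! ## E, F: discharging -/

/-- E: combinatorics of one orbit -/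
theorem orbit_bound [Finite D] (ρ : Equiv.Perm D) (fwd : D → Bool) (Don : D → Prop)
    (h1 : ∀ d, ρ d ≠ d)
    (hf : ∀ d, Don d → fwd d = true → ¬ Don (ρ d) ∧ ¬ Don (ρ (ρ d)))
    (hb : ∀ d, Don d → fwd d = false → ¬ Don (ρ.symm d) ∧ ¬ Don (ρ.symm (ρ.symm d)))
    (hs : ∀ d, Don d → ρ (ρ d) ≠ d ∧ ρ (ρ (ρ d)) ≠ d)
    (h4 : ∀ d, Don d → ρ (ρ (ρ (ρ d))) ≠ d)
    (h5 : ∀ d, Don d → fwd d = true → ρ (ρ (ρ (ρ (ρ d)))) = d → 
      ¬ (fwd (ρ (ρ (ρ d))) = false ∧ Don (ρ (ρ (ρ d)))) ∧ 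
      ¬ (fwd (ρ (ρ (ρ (ρ d)))) = false ∧ Don (ρ (ρ (ρ (ρ d)))))) (d : D) :
    4 + Nat.card {x : D // ρ.SameCycle d x ∧ Don x} ≤ Nat.card {x : D // ρ.SameCycle d x} + 
      Nat.card {x : D // ρ.SameCycle d x ∧ (ρ (ρ x) = x ∨ ρ (ρ (ρ x)) = x)} := by
  sorry

/-- F: summation over the orbits -/
theorem discharge [Finite D] (ρ π : Equiv.Perm D) (P : D → Prop)
    (h : ∀ d, 4 + Nat.card {x : D // ρ.SameCycle d x ∧ P (π x)} ≤ 
      Nat.card {x : D // ρ.SameCycle d x} + Nat.card {x : D // ρ.SameCycle d x ∧ P x}) :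
    4 * Nat.card (Quot fun x y : D => y = ρ x) ≤ Nat.card D := by
  sorry

/-! ## G: random labels -/

/-- G1: finite sets of edges of a tree have leaves -/
theorem leaf {n : ℕ} (T : SimpleGraph (Fin n)) (hT : T.IsTree) (ini ter : T.edgeSet → Fin n)
    (h : ∀ e, s(ini e, ter e) = e.1) (S : Finset T.edgeSet) (hS : S.Nonempty) :
    ∃ e ∈ S, (∀ e' ∈ S, e' ≠ e → ini e ≠ ini e' ∧ ini e ≠ ter e') ∨ 
      (∀ e' ∈ S, e' ≠ e → ter e ≠ ini e' ∧ ter e ≠ ter e') := by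
  sorry

/-- G2: weighted number of sets of edges with few end points -/
theorem weight_bound [Fintype E] [DecidableEq E] [DecidableEq V] (ini ter : E → V) 
    (hne : ∀ e, ini e ≠ ter e) (n Δ : ℕ) (hn : Fintype.card E ≤ n) (hn1 : 1 ≤ n) (hΔ1 : 1 ≤ Δ)
    (hΔ : ∀ v, (univ.filter (fun e => ini e = v ∨ ter e = v)).card ≤ Δ)
    (hleaf : ∀ S : Finset E, S.Nonempty → ∃ e ∈ S, (∀ e' ∈ S, e' ≠ e → ini e ≠ ini e' ∧ ini e ≠ ter e') ∨ 
      (∀ e' ∈ S, e' ≠ e → ter e ≠ ini e' ∧ ter e ≠ ter e')) (k : ℕ) (hk : 1 ≤ k) :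
    ∑ S ∈ powersetCard k (univ : Finset E), 
      (n : ℝ) ^ k / (n : ℝ) ^ (S.biUnion (fun e => ({ini e, ter e} : Finset V))).card ≤ 
      (2 * k * Δ : ℝ) ^ (k - 1) := by
  sorry

/-- G3: the number of labellings for which a given set `S` of edges involves few vertices -/
theorem label_count [Fintype E] [DecidableEq E] {n : ℕ} (hn : 1 ≤ n) (ini ter : E → Fin n) 
    (S : Finset E) (hS : S.Nonempty) :
    ((univ.filter (fun lab : E → Fin n => 
      ((⟨ini, ter, lab⟩ : LOG (Fin n) E).letters S).card < 2 * S.card)).card : ℝ) * n ≤ 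
      (2 * S.card : ℝ) ^ S.card * (n : ℝ) ^ Fintype.card E * 
        ((n : ℝ) ^ S.card / (n : ℝ) ^ (S.biUnion (fun e => ({ini e, ter e} : Finset (Fin n)))).card) := by
  sorry

end Pool.Agent.H891R2.RL
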